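import Pool.Agent.U619.UN.All

/-!
# The Anderson model has no ballistic transport, whatever the law of the disorder

`Δ_ω = -Δ + ω` on `ℓ²(ℤ^d)`, `d ≥ 1`, `ω_j` iid with any law which is not a point mass, for instance
`P(ω_j = ±1) = 1/2`, at any strength of the disorder. Almost surely the asymptotic velocity of every
state vanishes: for all `u` in `ℓ²(ℤ^d)` the time averages of `e^{isΔ_ω} i[Δ_ω, x_i] e^{-isΔ_ω} u`
tend to zero, and `x / t → 0` in probability in the state `e^{-itΔ_ω} u`; for finitely supported `u`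
all moments satisfy `∑_x |x|^p |(e^{-itΔ_ω} u)(x)|² = o(t^p)`, `p > 0`. The mean over the disorder
of the `p`-th moment of `e^{-itΔ_ω} δ_0` is `o(t^p)` as well, uniformly in the law on every set of
laws which is compact in the weak topology and contains no point mass, for instance for all laws on
`[-b, b]` with variance at least `κ²` (the fair law on `±1` is one of them for `b = κ = 1`). Nothing is
assumed about the type of the spectrum: absolutely continuous, singular continuous and point spectrum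
are all allowed.
-/

set_option autoImplicit false

open MeasureTheory Filter Topology
open scoped BigOperators ENNReal NNReal InnerProductSpace

namespace Pool.Agent.Results.MP_d0f69c_mp.NoBallisticTransport

/-- `ℓ²(ℤ^d)` -/
abbrev L2 (d : ℕ) : Type := lp (fun _ : Fin d → ℤ => ℂ) 2

/-- the operator of the problem, `(Δ_ω u)(j) = -∑_{|n|=1} (u(j+n) - u(j)) + ω_j u(j)` (the unit
vectors `n` are `± e_i`) -/
noncomputable def H {d : ℕ} (ω : (Fin d → ℤ) → ℝ) (u : (Fin d → ℤ) → ℂ) (j : Fin d → ℤ) : ℂ :=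
  -(∑ i : Fin d, ((u (j + Pi.single i 1) - u j) + (u (j - Pi.single i 1) - u j))) + (ω j : ℂ) * u j

/-- `U t = e^{-itΔ_ω}`: norm preserving maps of `ℓ²(ℤ^d)` with `U 0 = 1` and
`i ∂_t (U_t u) = Δ_ω U_t u` at every site -/
structure IsPropagator {d : ℕ} (ω : (Fin d → ℤ) → ℝ) (U : ℝ → L2 d → L2 d) : Prop where
  zero : ∀ u, U 0 u = u
  norm : ∀ t u, ‖U t u‖ = ‖u‖
  schrodinger : ∀ u t j, HasDerivAt (fun s => (U s u) j)
    (-Complex.I * H ω (fun k => (U t u) k) j) t

/-- `v` is the velocity operator `i[Δ_ω, x_i]`, `(v u)(j) = -i (u(j+e_i) - u(j-e_i))` -/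
def IsVelocity {d : ℕ} (i : Fin d) (v : L2 d → L2 d) : Prop :=
  ∀ u j, (v u) j = -Complex.I * (u (j + Pi.single i 1) - u (j - Pi.single i 1))

/-- the time average over `[0,T]` of the velocity at time `s`, `U_{-s} v U_s`, applied to `u` -/
noncomputable def average {d : ℕ} (U : ℝ → L2 d → L2 d) (v : L2 d → L2 d) (T : ℝ)
    (u : L2 d) : L2 d :=
  ((T : ℂ)⁻¹) • ∫ s in (0 : ℝ)..T, U (-s) (v (U s u))

/-- the `p`-th moment `∑_x |x|^p |u(x)|²` of the position in the state `u` (Euclidean norm) -/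
noncomputable def moment {d : ℕ} (p : ℝ) (u : L2 d) : ℝ≥0∞ :=
  ∑' x : Fin d → ℤ, ENNReal.ofReal ((∑ i : Fin d, (x i : ℝ) ^ 2) ^ (p / 2)) * ‖u x‖ₑ ^ 2

/-- `∑_{|x| > R} |u(x)|²`, the probability to be at distance more than `R` in the state `u` -/
noncomputable def farMass {d : ℕ} (R : ℝ) (u : L2 d) : ℝ≥0∞ :=
  ∑' x : Fin d → ℤ, if R ^ 2 < ∑ i : Fin d, (x i : ℝ) ^ 2 then ‖u x‖ₑ ^ 2 else 0

/-- the law of iid variables with law `μ` on `ℤ^d` -/
noncomputable def iid (d : ℕ) (μ : Measure ℝ) : Measure ((Fin d → ℤ) → ℝ) :=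
  Measure.infinitePi fun _ => μ

/-- the laws on `[-b, b]` with variance at least `κ²` (the variance is the minimum over `x` of the
mean square distance to `x`) -/
def spreadLaws (b κ : ℝ) : Set (ProbabilityMeasure ℝ) :=
  {μ | (μ : Measure ℝ) (Set.Icc (-b) b)ᶜ = 0 ∧
    ∀ x : ℝ, κ ^ 2 ≤ ∫ y, (y - x) ^ 2 ∂(μ : Measure ℝ)}

/-- the means over the disorder of all moments of `e^{-itΔ_ω} δ_0` are subballistic, uniformly for
the laws in `K` -/
def UniformlySubballistic (d : ℕ) (K : Set (ProbabilityMeasure ℝ)) : Prop :=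
  ∀ U : ((Fin d → ℤ) → ℝ) → ℝ → L2 d → L2 d, (∀ ω, IsPropagator ω (U ω)) →
    ∀ p : ℝ, 0 < p → ∀ ε : ℝ, 0 < ε → ∃ t₀ : ℝ, ∀ t : ℝ, t₀ ≤ t → ∀ μ ∈ K,
      ∫⁻ ω, moment p (U ω t (lp.single 2 0 1)) ∂(iid d (μ : Measure ℝ)) ≤
        ENNReal.ofReal (ε * t ^ p)

open Pool.Agent.H5R2.NB Pool.Agent.U619.NB

theorem hop_eq' {d : ℕ} (ω : (Fin d → ℤ) → ℝ) (u : (Fin d → ℤ) → ℂ) (x : Fin d → ℤ) :
    hopf (-1) u x + (((2 * d + ω x : ℝ)) : ℂ) * u x = H ω u x := by
  unfold hopf H
  have : ∑ i : Fin d, ((u (x + Pi.single i 1) - u x) + (u (x - Pi.single i 1) - u x)) =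
      ∑ i : Fin d, (u (x + Pi.single i 1) + u (x - Pi.single i 1)) - 2 * d * u x := by
    have h : ∀ i : Fin d, (u (x + Pi.single i 1) - u x) + (u (x - Pi.single i 1) - u x) =
        (u (x + Pi.single i 1) + u (x - Pi.single i 1)) - 2 * u x := fun i => by ring
    simp only [h, Finset.sum_sub_distrib, Finset.sum_const, Finset.card_univ, Fintype.card_fin,
      nsmul_eq_mul]
    ring
  rw [this]
  push_cast
  ring

theorem sol_of_prop {d : ℕ} {ω : (Fin d → ℤ) → ℝ} {U : ℝ → L2 d → L2 d}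
    (hU : IsPropagator ω U) (u : L2 d) :
    IsSol (-1) (fun x => 2 * d + ω x) (fun t => U t u) (fun _ => 0) := by
  refine ⟨fun T => ⟨‖u‖, fun t _ => (hU.norm t u).le⟩, fun t x => ?_⟩
  have h := hU.schrodinger u t x
  rw [← hop_eq' ω (fun k => (U t u) k) x] at h
  simpa using h

theorem prop_of_grp {d : ℕ} {ω : (Fin d → ℤ) → ℝ} {W : UG (Pool.Agent.H5R2.NB.L2 (Site d))}
    (hW : IsGrp (-1) (fun x => 2 * d + ω x) W) : IsPropagator ω (fun t u => W.U t u) := by
  refine ⟨W.zero', W.norm', fun u t x => ?_⟩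
  have h := (hW u).2 t x
  rw [← hop_eq' ω (fun k => (W.U t u) k) x]
  simpa using h

theorem prop_eq {d : ℕ} {ω : (Fin d → ℤ) → ℝ} {W : UG (Pool.Agent.H5R2.NB.L2 (Site d))}
    (hW : IsGrp (-1) (fun x => 2 * d + ω x) W) {U : ℝ → L2 d → L2 d}
    (hU : IsPropagator ω U) (t : ℝ) (u : L2 d) : U t u = W.U t u := by
  have h := Pool.Agent.H5R2.NB.ALL.a_UN d (-1) _ W hW (fun t => U t u) (fun _ => 0)
    continuous_const (sol_of_prop hU u) t
  simpa [hU.zero u] using h

theorem fin_M2 {d : ℕ} (u : L2 d) (hu : {x | u x ≠ 0}.Finite) : M2 u ≠ ∞ := by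
  unfold M2
  rw [tsum_eq_sum (s := hu.toFinset) (by
    intro x hx
    have : u x = 0 := by simpa using hx
    rw [this]
    simp)]
  exact ENNReal.sum_ne_top.2 fun x _ =>
    ENNReal.mul_ne_top ENNReal.ofReal_ne_top (ENNReal.pow_ne_top enorm_ne_top)

theorem fin_EE {d : ℕ} (j : Fin d) (u : L2 d) (hu : {x | u x ≠ 0}.Finite) : EE j u ≠ ∞ := by
  unfold EE
  rw [tsum_eq_sum (s := hu.toFinset) (by
    intro x hx
    have : u x = 0 := by simpa using hx
    rw [this]
    simp)]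
  exact ENNReal.sum_ne_top.2 fun x _ =>
    ENNReal.mul_ne_top ENNReal.ofReal_ne_top (ENNReal.pow_ne_top enorm_ne_top)

theorem mean_eq {d : ℕ} {ev : (Site d → ℝ) → UG (Pool.Agent.H5R2.NB.L2 (Site d))}
    (hev : ∀ V, IsGrp (-1) V (ev V)) {U : ((Fin d → ℤ) → ℝ) → ℝ → L2 d → L2 d}
    (hU : ∀ ω, IsPropagator ω (U ω)) (p t : ℝ) (μ : ProbabilityMeasure ℝ) :
    ∫⁻ ω, moment p (U ω t (lp.single 2 0 1)) ∂(iid d (μ : Measure ℝ)) =
      ∫⁻ V, Mp p ((ev V).U t (dl 0)) ∂(PP d
        ((Pool.Agent.U619.UN.aff (2 * (d : ℝ)) (1, μ) : ProbabilityMeasure ℝ) :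
          Measure ℝ)) := by
  rw [Pool.Agent.U619.UN.lint_aff (fun V => Mp p ((ev V).U t (dl 0)))
    (Pool.Agent.U619.UN.meas_Mp hev p t)]
  refine lintegral_congr fun ω => ?_
  have h1 : (fun x => 2 * (d : ℝ) + 1 * ω x) = fun x => 2 * (d : ℝ) + ω x := by
    funext x
    rw [one_mul]
  rw [h1]
  unfold moment Mp
  refine tsum_congr fun x => ?_
  rw [prop_eq (hev _) (hU ω)]
  rfl

theorem uniform_point {d : ℕ} (hd : 1 ≤ d) (K : Set (ProbabilityMeasure ℝ)) (hK : IsCompact K)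
    (hnd : ∀ μ ∈ K, ∀ r : ℝ, (μ : Measure ℝ) {r} ≠ 1) : UniformlySubballistic d K := by
  intro U hU p hp ε hε
  choose ev hev using fun V : Site d → ℝ => Pool.Agent.H5R2.NB.ALL.a_EX d (-1) V
  obtain ⟨t₀, ht₀⟩ := Pool.Agent.U619.UN.unif_coupling hd hev (2 * (d : ℝ)) K hK hnd
    1 1 one_pos p hp ε hε
  refine ⟨t₀, fun t ht μ hμ => ?_⟩
  rw [mean_eq hev hU]
  exact ht₀ t ht μ hμ 1 (by simp) (by simp)

/-- For every dimension `d ≥ 1` the unitary group `e^{-itΔ_ω}` exists and is unique for every `ω`.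
(1) For every law `μ` which is not a point mass and almost every `ω` (iid with law `μ`)
* the time averages over `[0,T]` of the velocities `U_{-s} i[Δ_ω, x_i] U_s u` tend to `0` as
  `T → ∞`, for all `u` in `ℓ²(ℤ^d)`;
* for all `u` in `ℓ²(ℤ^d)` and `ε > 0` the probability to be at time `t` at distance more than `ε t`
  tends to `0`;
* the `p`-th moment of the position in the state `e^{-itΔ_ω} u` is `o(t^p)` for all `p > 0` and all
  finitely supported `u`.
(2) On every weakly compact set of laws without point masses, in particular for the laws on `[-b,b]`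
with variance at least `κ²`, the means over the disorder of the `p`-th moments of `e^{-itΔ_ω} δ_0`
are `o(t^p)` uniformly in the law, for all `p > 0`. -/
theorem result (d : ℕ) (hd : 1 ≤ d) :
    (∀ ω : (Fin d → ℤ) → ℝ, ∃! U : ℝ → L2 d → L2 d, IsPropagator ω U) ∧
    (∀ (μ : Measure ℝ) [IsProbabilityMeasure μ], (∀ r : ℝ, μ {r} ≠ 1) →
      ∀ U : ((Fin d → ℤ) → ℝ) → ℝ → L2 d → L2 d, (∀ ω, IsPropagator ω (U ω)) →
      ∀ᵐ ω ∂(iid d μ),
        (∀ u : L2 d, ∀ i : Fin d, ∀ v : L2 d → L2 d, IsVelocity i v →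
          Tendsto (fun T : ℝ => average (U ω) v T u) atTop (𝓝 0)) ∧
        (∀ u : L2 d, ∀ ε : ℝ, 0 < ε →
          Tendsto (fun t : ℝ => farMass (ε * t) (U ω t u)) atTop (𝓝 0)) ∧
        (∀ p : ℝ, 0 < p → ∀ u : L2 d, {x | u x ≠ 0}.Finite →
          Tendsto (fun t : ℝ => moment p (U ω t u) / ENNReal.ofReal (t ^ p)) atTop (𝓝 0))) ∧
    (∀ K : Set (ProbabilityMeasure ℝ), IsCompact K →
      (∀ μ ∈ K, ∀ r : ℝ, (μ : Measure ℝ) {r} ≠ 1) → UniformlySubballistic d K) ∧
    (∀ b κ : ℝ, κ ≠ 0 → UniformlySubballistic d (spreadLaws b κ)) := by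
  refine ⟨fun ω => ?_, ?_, fun K hK hnd => uniform_point hd K hK hnd,
    fun b κ hκ => uniform_point hd _ (Pool.Agent.U619.UN.isCompact_spread b κ)
      (Pool.Agent.U619.UN.spread_ne b κ hκ)⟩
  · obtain ⟨W, hW⟩ := Pool.Agent.H5R2.NB.ALL.a_EX d (-1) (fun x => 2 * d + ω x)
    refine ⟨fun t u => W.U t u, prop_of_grp hW, fun U hU => ?_⟩
    funext t u
    exact prop_eq hW hU t u
  · intro μ _ hμ U hU
    choose ev hev using fun V : Site d → ℝ => Pool.Agent.H5R2.NB.ALL.a_EX d (-1) V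
    choose v0 hv0 using fun i : Fin d => (t_OPS d).2.2 (-1 : ℝ) i
    have hg : Measurable (fun r : ℝ => 2 * (d : ℝ) + r) := by fun_prop
    have hpm : IsProbabilityMeasure (μ.map fun r : ℝ => 2 * (d : ℝ) + r) :=
      Measure.isProbabilityMeasure_map hg.aemeasurable
    have hne : ∀ κ : ℝ, (μ.map fun r : ℝ => 2 * (d : ℝ) + r) {κ} ≠ 1 := by
      intro κ
      rw [Measure.map_apply hg (measurableSet_singleton κ)]
      have : (fun r : ℝ => 2 * (d : ℝ) + r) ⁻¹' {κ} = {κ - 2 * d} := by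
        ext r
        simp only [Set.mem_preimage, Set.mem_singleton_iff]
        constructor <;> intro h <;> linarith
      rw [this]
      exact hμ _
    have hmap : (iid d μ).map (fun (ω : Site d → ℝ) (x : Site d) => 2 * (d : ℝ) + ω x) =
        PP d (μ.map fun r : ℝ => 2 * (d : ℝ) + r) := by
      unfold PP iid
      exact Measure.infinitePi_map_pi (μ := fun _ : Site d => μ) (fun _ => hg)
    have hgm : Measurable (fun (ω : Site d → ℝ) (x : Site d) => 2 * (d : ℝ) + ω x) :=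
      measurable_pi_iff.2 fun x => hg.comp (measurable_pi_apply x)
    have hUe : ∀ ω t u, U ω t u = (ev fun x => 2 * (d : ℝ) + ω x).U t u := by
      intro ω t u
      exact prop_eq (hev _) (hU ω) t u
    have hall := (Pool.Agent.U619.ZV.all_zero hev hne).and
      (Pool.Agent.U619.ZV.moments hd hev hne)
    rw [← hmap] at hall
    have hall2 := ae_of_ae_map hgm.aemeasurable hall
    filter_upwards [hall2] with ω hω
    refine ⟨fun u i v hv => ?_, fun u ε hε => ?_, fun p hp u hu => ?_⟩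
    · have h1 := (hω.1 u).1 i (v0 i) (hv0 i)
      refine h1.congr fun T => ?_
      unfold average
      congr 1
      refine intervalIntegral.integral_congr fun s _ => ?_
      show (ev fun x => 2 * (d : ℝ) + ω x).U (-s) (v0 i ((ev fun x => 2 * (d : ℝ) + ω x).U s u)) =
        U ω (-s) (v (U ω s u))
      rw [hUe, hUe]
      congr 1
      ext x
      rw [hv0 i _ x, hv _ x]
      push_cast
      ring
    · refine ((hω.1 u).2.2 ε hε).congr fun t => ?_
      rw [hUe]
      rfl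
    · refine (hω.2 p hp u (fin_M2 u hu) (fun j => fin_EE j u hu)).congr fun t => ?_
      rw [hUe]
      rfl

end Pool.Agent.Results.MP_d0f69c_mp.NoBallisticTransport
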