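import Pool.Agent.U281.LU.Fin
import Pool.Agent.U281.LU.Mass

set_option autoImplicit false

/-!
# Bernoulli disorder of any strength: spreading at every energy

Let `K` be any continuous real function on the torus `T^d`, `d ≥ 1`, for instance the symbol of
`-Δ`, let `[a, b]` be any bounded interval, `1 < p < 2`, `0 ≤ g < d / 3`, `κ, ε, W > 0`. There
are a continuous function `f` with `∫ |f(λ(k))|^p dk ≤ ε`, `λ` the symbol of `-Δ`, and with hopping
amplitudes of `f(-Δ)` at most `ε / (1 + |x|) ^ g`, and constants `C_q`, `D` such that for ALL laws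
of the disorder on `[-W, W]` with spread at least `κ`, in particular for the fair `±1` law (spread
`1/2`), and for ALL couplings `κ ≤ |λ| ≤ 1 / κ`, the operator `H = K + f(-Δ) + λ V_ω` has the following
properties. Let `G(x, y; z) = ⟨δ_y, (H - z)⁻¹ δ_x⟩`, `z = E + i η`, `0 < η ≤ η₀`, and
`L = 1 + log (η₀ / η)`.

* For every energy `E ∈ [a, b]` and all sites, `E |G(x, y; E + i η)| ^ q ≤ C_q L ^ q`: the off-diagonal
  elements grow at most logarithmically, for every pair of sites.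
* The numbers `m(y) = η |G(x, y; E + i η)|² / Im G(x, x; E + i η)` are the distribution of a particle
  in the normalised state `(H - E - i η)⁻¹ δ_x`: `∑ m(y) = 1`. For every finite set `A` of sites
  the expected mass `E ∑_{y ∈ A} m(y)` is at most `D |A| η L²`.

So at every energy `E ∈ [a, b]` the state `(H - E - i η)⁻¹ δ_x` is spread over at least
`η ^ (-1 + o(1))` sites, over distances at least `η ^ (-1/d + o(1))`, uniformly in the energy, the
law and the coupling. For a localized operator the mass stays near `x` as `η → 0`.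
-/

namespace Pool.Agent.Results.MP_d0f69c_mp.SpreadingAtEveryEnergy

open MeasureTheory

noncomputable section

/-- The symbol `∑ i (2 - 2 cos (2 π k_i))` of `-Δ` on `ℤ^d`. -/
def lapSymbol (d : ℕ) : C(UnitAddTorus (Fin d), ℝ) where
  toFun k := ∑ i, (2 - 2 * (fourier 1 (k i)).re)
  continuous_toFun := by fun_prop

/-- The hopping amplitudes of the translation invariant operator with symbol `K`. -/
def hopping {d : ℕ} (K : C(UnitAddTorus (Fin d), ℝ)) (x : Fin d → ℤ) : ℂ :=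
  UnitAddTorus.mFourierCoeff (fun k : UnitAddTorus (Fin d) => ((K k : ℝ) : ℂ)) x

/-- `((K + lam V_ω) u) (y)`. -/
def H {d : ℕ} (K : C(UnitAddTorus (Fin d), ℝ)) (lam : ℝ) (ω : (Fin d → ℤ) → ℝ)
    (u : (Fin d → ℤ) → ℂ) (y : Fin d → ℤ) : ℂ :=
  (∑' y', hopping K (y - y') * u y') + ((lam * ω y : ℝ) : ℂ) * u y

/-- `u` is square summable and `(H - z) u = δ_x`, i.e. `u = (H - z)⁻¹ δ_x`. -/
def IsGreen {d : ℕ} (K : C(UnitAddTorus (Fin d), ℝ)) (lam : ℝ) (ω : (Fin d → ℤ) → ℝ) (z : ℂ)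
    (x : Fin d → ℤ) (u : (Fin d → ℤ) → ℂ) : Prop :=
  Summable (fun y => ‖u y‖ ^ 2) ∧ ∀ y, H K lam ω u y - z * u y = if y = x then 1 else 0

open Classical in
/-- `(H - z)⁻¹ δ_x`, a function on `ℤ^d` (it exists and is unique by `Spreading.resolvent`). -/
def green {d : ℕ} (K : C(UnitAddTorus (Fin d), ℝ)) (lam : ℝ) (ω : (Fin d → ℤ) → ℝ) (z : ℂ)
    (x : Fin d → ℤ) : (Fin d → ℤ) → ℂ :=
  if h : ∃ u, IsGreen K lam ω z x u then Classical.choose h else 0

/-- The law of the disorder: `ω` is i.i.d. with law `ν`. -/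
abbrev Law (d : ℕ) (ν : Measure ℝ) : Measure ((Fin d → ℤ) → ℝ) :=
  Measure.infinitePi fun _ : Fin d → ℤ => ν

/-- `E |F| ^ p ≤ C`, the expectation being finite. -/
def MomentLE {d : ℕ} (ν : Measure ℝ) (p : ℕ) (F : ((Fin d → ℤ) → ℝ) → ℂ) (C : ℝ) : Prop :=
  Integrable (fun ω => ‖F ω‖ ^ p) (Law d ν) ∧ ∫ ω, ‖F ω‖ ^ p ∂(Law d ν) ≤ C

/-- The strip `a ≤ Re z ≤ b`, `0 < Im z ≤ η`. -/
def Strip (a b η : ℝ) : Set ℂ := {z | a ≤ z.re ∧ z.re ≤ b ∧ 0 < z.im ∧ z.im ≤ η}

/-- The part at the site `y` of the squared norm of `(H - z)⁻¹ δ_x`, normalised: the squared norm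
of `(H - z)⁻¹ δ_x` is `Im G(x, x; z) / Im z`. -/
def mass {d : ℕ} (K : C(UnitAddTorus (Fin d), ℝ)) (lam : ℝ) (ω : (Fin d → ℤ) → ℝ) (z : ℂ)
    (x y : Fin d → ℤ) : ℝ :=
  z.im * ‖green K lam ω z x y‖ ^ 2 / (green K lam ω z x x).im

/-- Spreading at every energy of `[a, b]`, with constants `C q` and `D`. -/
structure Spreading {d : ℕ} (K : C(UnitAddTorus (Fin d), ℝ)) (lam : ℝ) (ν : Measure ℝ)
    (a b η : ℝ) (C : ℕ → ℝ) (D : ℝ) : Prop where
  /-- The resolvent is well defined and depends measurably on the disorder. -/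
  resolvent : ∀ z : ℂ, 0 < z.im → ∀ x : Fin d → ℤ,
    (∀ ω u, IsGreen K lam ω z x u ↔ u = green K lam ω z x) ∧
      ∀ y, Measurable fun ω => green K lam ω z x y
  /-- Moments of all matrix elements. -/
  moments : ∀ q : ℕ, 1 ≤ q → ∀ (x y : Fin d → ℤ), ∀ z ∈ Strip a b η,
    MomentLE ν q (fun ω => green K lam ω z x y) (C q * (1 + Real.log (η / z.im)) ^ q)
  /-- The total mass is one. -/
  total : ∀ ω, ∀ z : ℂ, 0 < z.im → ∀ x : Fin d → ℤ,
    (∀ y, 0 ≤ mass K lam ω z x y) ∧ HasSum (fun y => mass K lam ω z x y) 1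
  /-- The expected mass in a finite set. -/
  spread : ∀ (x : Fin d → ℤ) (A : Finset (Fin d → ℤ)), ∀ z ∈ Strip a b η,
    Integrable (fun ω => ∑ y ∈ A, mass K lam ω z x y) (Law d ν) ∧
      ∫ ω, ∑ y ∈ A, mass K lam ω z x y ∂(Law d ν)
        ≤ D * A.card * z.im * (1 + Real.log (η / z.im)) ^ 2

/-- The spread `∬ (s - t)² / ((1 + s²) (1 + t²)) dν(s) dν(t)` of a law. -/
def spread (ν : Measure ℝ) : ℝ :=
  ∫ p : ℝ × ℝ, (p.1 - p.2) ^ 2 / ((1 + p.1 ^ 2) * (1 + p.2 ^ 2)) ∂(ν.prod ν)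

/-- The law of the fair `±1` disorder. -/
def coin : Measure ℝ := (2 : ENNReal)⁻¹ • (Measure.dirac 1 + Measure.dirac (-1))

instance coin_prob : IsProbabilityMeasure coin := by
  refine ⟨?_⟩
  unfold coin
  rw [Measure.smul_apply, Measure.add_apply, measure_univ, measure_univ, smul_eq_mul]
  have e : (1 : ENNReal) + 1 = 2 := by norm_num
  rw [e]
  exact ENNReal.inv_mul_cancel (by norm_num) (by norm_num)

theorem coin_supp : coin (Set.Icc (-1) 1)ᶜ = 0 := by
  unfold coin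
  rw [Measure.smul_apply, Measure.add_apply, Measure.dirac_apply' _ measurableSet_Icc.compl,
    Measure.dirac_apply' _ measurableSet_Icc.compl]
  simp

theorem spread_eq (ν : Measure ℝ) [IsProbabilityMeasure ν] :
    W792.WA.vr ν = 2 * spread ν := by
  rw [Pool.Agent.U281.NP.Vrs.vr_eq Pool.Agent.W792.WA.Al.cay]
  simp_rw [Pool.Agent.U281.NP.Vrs.cay_sub]
  unfold spread
  have : ∀ p : ℝ × ℝ, 4 * (p.1 - p.2) ^ 2 / ((1 + p.1 ^ 2) * (1 + p.2 ^ 2))
      = 4 * ((p.1 - p.2) ^ 2 / ((1 + p.1 ^ 2) * (1 + p.2 ^ 2))) := fun p => by ring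
  simp_rw [this]
  rw [integral_const_mul]
  ring

theorem spread_coin : spread coin = 1 / 2 := by
  have h1 : W792.WA.vr coin = 1 := by
    unfold W792.WA.vr
    have e : ∫ x, W792.LL.cay x ∂coin = 0 := by
      unfold coin
      rw [integral_smul_measure, integral_add_measure (integrable_dirac (by simp))
        (integrable_dirac (by simp)), integral_dirac, integral_dirac]
      have h2 : W792.LL.cay 1 + W792.LL.cay (-1) = 0 := by
        unfold W792.LL.cay
        have h3 : ((1 : ℝ) : ℂ) - Complex.I ≠ 0 := by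
          intro h
          have := congrArg Complex.re h
          simp at this
        have h4 : ((-1 : ℝ) : ℂ) - Complex.I ≠ 0 := by
          intro h
          have := congrArg Complex.re h
          simp at this
        rw [div_add_div _ _ h3 h4, div_eq_zero_iff]
        left
        have := Complex.I_mul_I
        push_cast
        linear_combination (-2 : ℂ) * this
      rw [h2, smul_zero]
    rw [e]
    simp
  have h2 := spread_eq coin
  rw [h1] at h2
  linarith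

theorem isGreen_iff {d : ℕ} (K : C(UnitAddTorus (Fin d), ℝ)) (lam : ℝ) (ω : (Fin d → ℤ) → ℝ)
    {z : ℂ} (hz : 0 < z.im) (x : Fin d → ℤ) (u : (Fin d → ℤ) → ℂ) :
    IsGreen K lam ω z x u ↔ u = U281.LAP.Gr K lam ω z x := by
  rw [← U281.LAP.Gr_iff K lam ω hz x u]
  exact Iff.rfl

theorem green_eq {d : ℕ} (K : C(UnitAddTorus (Fin d), ℝ)) (lam : ℝ) (ω : (Fin d → ℤ) → ℝ)
    {z : ℂ} (hz : 0 < z.im) (x : Fin d → ℤ) :
    green K lam ω z x = U281.LAP.Gr K lam ω z x := by
  have hex : ∃ u, IsGreen K lam ω z x u := ⟨_, (isGreen_iff K lam ω hz x _).2 rfl⟩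
  unfold green
  rw [dif_pos hex]
  exact (isGreen_iff K lam ω hz x _).1 (Classical.choose_spec hex)

/-- Let `K` be a continuous real function on `T^d`, `d ≥ 1`, let `a < b`, `1 < p < 2`,
`0 ≤ g < d / 3`, `κ, ε > 0` and `W` real. There are a continuous function `f` with
`∫ |f(λ(k))|^p dk ≤ ε`, `λ` the symbol of `-Δ`, and hopping amplitudes of `f(-Δ)` at most
`ε / (1 + |x|) ^ g`, `|x| = max |x_i|`, and constants `C q ≥ 0`, `D` such that for all probability
laws `ν` on `[-W, W]` with spread at least `κ` and all couplings `κ ≤ |lam| ≤ 1 / κ` the operator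
`K + f(-Δ) + lam V_ω`, `ω` i.i.d. with law `ν`, spreads at every energy of `[a, b]` with these
constants. The fair `±1` law is a law on `[-1, 1]` with spread `1 / 2`. -/
theorem result (d : ℕ) (hd : 0 < d) (K : C(UnitAddTorus (Fin d), ℝ)) (a b p g κ ε W : ℝ)
    (hab : a < b) (hp1 : 1 < p) (hp2 : p < 2) (hg0 : 0 ≤ g) (hg : g < (d : ℝ) / 3) (hκ : 0 < κ)
    (hε : 0 < ε) :
    (coin (Set.Icc (-1) 1)ᶜ = 0 ∧ spread coin = 1 / 2) ∧
    ∃ f : C(ℝ, ℝ), (∫ k : UnitAddTorus (Fin d), |f (lapSymbol d k)| ^ p ≤ ε) ∧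
      (∀ x : Fin d → ℤ, ‖hopping (f.comp (lapSymbol d)) x‖ ≤ ε / (1 + ‖x‖) ^ g) ∧
      ∃ (C : ℕ → ℝ) (D : ℝ), (∀ q, 0 ≤ C q) ∧
        ∀ (ν : Measure ℝ) [IsProbabilityMeasure ν], ν (Set.Icc (-W) W)ᶜ = 0 → κ ≤ spread ν →
          ∀ lam : ℝ, κ ≤ |lam| → |lam| ≤ 1 / κ →
            Spreading (K + f.comp (lapSymbol d)) lam ν a b ((b - a) / (4 * d)) C D := by
  refine ⟨⟨coin_supp, spread_coin⟩, ?_⟩
  obtain ⟨f, h1, h2, C, θ, hC, hθ, h3⟩ :=
    U281.LU.fin d K a b p g κ ε hd hab hp1 hp2 hg0 hg hκ hε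
  have hd' : (0 : ℝ) < d := by exact_mod_cast hd
  have hη : 0 < (b - a) / (4 * d) := div_pos (by linarith) (by positivity)
  refine ⟨f, h1, h2, U281.LU.cO ((b - a) / (4 * d)) C,
    U281.LU.cW ((b - a) / (4 * d)) (1 + (1 / κ * |W|) ^ 2) C, fun q => ?_,
    fun ν _ hW hν lam hl1 hl2 => ?_⟩
  · have := hC q
    unfold U281.LU.cO
    positivity
  have h4 : κ ≤ W792.WA.vr ν := by
    rw [spread_eq]
    linarith
  have hF := h3 ν h4 lam hl1 hl2
  have hms : ∀ (ω : (Fin d → ℤ) → ℝ) (z : ℂ), 0 < z.im → ∀ x y,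
      mass (K + f.comp (lapSymbol d)) lam ω z x y
        = U281.LU.ms (K + f.comp (lapSymbol d)) lam ω z x y := by
    intro ω z hz x y
    unfold mass U281.LU.ms
    rw [green_eq _ lam ω hz x]
  refine ⟨fun z hz x => ⟨fun ω u => ?_, fun y => ?_⟩, fun q hq x y z hz => ?_,
    fun ω z hz x => ⟨fun y => ?_, ?_⟩, fun x A z hz => ?_⟩
  · rw [green_eq _ lam ω hz x]
    exact isGreen_iff _ lam ω hz x u
  · simp only [green_eq _ lam _ hz x]
    exact U281.LAP.Gr_meas _ lam hz x y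
  · have hz2 : 0 < z.im := hz.2.2.1
    simp only [green_eq _ lam _ hz2]
    exact U281.LU.off_mom hF hC hq x y hz
  · rw [hms ω z hz x y]
    have := U281.LU.Gr_im_pos (K + f.comp (lapSymbol d)) lam ω hz x
    unfold U281.LU.ms
    positivity
  · simp only [hms ω z hz x]
    exact U281.LU.ms_sum (K + f.comp (lapSymbol d)) lam ω hz x
  · have hz2 : 0 < z.im := hz.2.2.1
    simp only [hms _ z hz2 x]
    refine U281.LU.mass_le hF hC hW ?_ x A hz
    have k1 : (lam * W) ^ 2 ≤ (1 / κ * |W|) ^ 2 := by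
      rw [← sq_abs (lam * W), abs_mul]
      apply pow_le_pow_left₀ (by positivity)
      exact mul_le_mul_of_nonneg_right hl2 (abs_nonneg _)
    linarith

end

end Pool.Agent.Results.MP_d0f69c_mp.SpreadingAtEveryEnergy
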