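import Pool.Agent.U281.LU.Fin
import Pool.Agent.U281.WG.Tv

set_option autoImplicit false

/-!
# Disorder of any strength, Bernoulli included: stability in total variation and for all times

Let `K` be any continuous real function on the torus `T^d`, `d ≥ 1`, for instance the symbol of
`-Δ`, let `[a, b]` be any bounded interval, `1 < p < 2`, `0 ≤ g < d / 3`, `κ, ε > 0`. There
are a continuous function `f` with `∫ |f(λ(k))|^p dk ≤ ε`, `λ` the symbol of `-Δ`, and with hopping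
amplitudes of `f(-Δ)` at most `ε / (1 + |x|) ^ g`, and numbers `δ_q(e) > 0` with the following
property. Let `(V_x, V'_x)` be i.i.d. pairs of real random variables, with ANY joint law such that
the laws of `V_x` and `V'_x` have spread at least `κ` (for instance: `V_x` a fair sign, or a fair
sign times a coupling constant, and `V'_x` the same plus a small noise), and let
`H = K + f(-Δ) + V`, `H' = K + f(-Δ) + V'`. If `|V_x - V'_x| ≤ δ_q(e)` then for every site `x`: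

* the spectral measures `μ_x`, `μ'_x` of `δ_x` satisfy `E (sup_J |μ_x(J) - μ'_x(J)|)^q ≤ e`, the
  supremum over ALL Borel sets `J` of `(a, b)`;
* the return amplitudes satisfy `E (sup_t |⟨δ_x, e^(-itH) 1_(a,b)(H) δ_x⟩ -
  ⟨δ_x, e^(-itH') 1_(a,b)(H') δ_x⟩|)^q ≤ e`, the supremum over ALL times `t`;
* the mean spectral measures have densities `n`, `n'` on `(a, b)`, continuous on `[a, b]`, and
  `|n(E) - n'(E)| ≤ e` for all `E` in `[a, b]` (if `|V_x - V'_x| ≤ δ_1(e)`).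

So in the whole interval the spectral measures are uniformly continuous functions of the potential in
the norm of total variation, uniformly in the law and the strength of the disorder. For localized
operators this fails completely: there the spectral measures are concentrated on countable sets which
move with the potential, and for generic small changes of it `μ_x` and `μ'_x` are mutually
singular, and the small change of the eigenvalues becomes visible after a long time.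
-/

namespace Pool.Agent.Results.MP_d0f69c_mp.StabilityAllTimes

open MeasureTheory Set
open scoped ENNReal

noncomputable section

/-- The symbol `∑ i (2 - 2 cos (2 π k_i))` of `-Δ` on `ℤ^d`. -/
def lapSymbol (d : ℕ) : C(UnitAddTorus (Fin d), ℝ) where
  toFun k := ∑ i, (2 - 2 * (fourier 1 (k i)).re)
  continuous_toFun := by fun_prop

/-- The hopping amplitudes of the translation invariant operator with symbol `K`. -/
def hopping {d : ℕ} (K : C(UnitAddTorus (Fin d), ℝ)) (x : Fin d → ℤ) : ℂ :=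
  UnitAddTorus.mFourierCoeff (fun k : UnitAddTorus (Fin d) => ((K k : ℝ) : ℂ)) x

/-- `((K + V) u) (y)`. -/
def H {d : ℕ} (K : C(UnitAddTorus (Fin d), ℝ)) (V : (Fin d → ℤ) → ℝ)
    (u : (Fin d → ℤ) → ℂ) (y : Fin d → ℤ) : ℂ :=
  (∑' y', hopping K (y - y') * u y') + (V y : ℂ) * u y

/-- `u` is square summable and `(H - z) u = δ_x`, i.e. `u = (H - z)⁻¹ δ_x`. -/
def IsGreen {d : ℕ} (K : C(UnitAddTorus (Fin d), ℝ)) (V : (Fin d → ℤ) → ℝ) (z : ℂ)
    (x : Fin d → ℤ) (u : (Fin d → ℤ) → ℂ) : Prop :=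
  Summable (fun y => ‖u y‖ ^ 2) ∧ ∀ y, H K V u y - z * u y = if y = x then 1 else 0

/-- `μ` is the spectral measure of `δ_x`: a finite measure with
`⟨δ_x, (H - z)⁻¹ δ_x⟩ = ∫ dμ(E) / (E - z)` for `Im z > 0`, where `(H - z)⁻¹ δ_x` exists and is
unique. -/
def IsSpectral {d : ℕ} (K : C(UnitAddTorus (Fin d), ℝ)) (V : (Fin d → ℤ) → ℝ)
    (x : Fin d → ℤ) (μ : Measure ℝ) : Prop :=
  IsFiniteMeasure μ ∧ ∀ z : ℂ, 0 < z.im → (∃! u, IsGreen K V z x u) ∧
    ∀ u, IsGreen K V z x u → u x = ∫ E : ℝ, 1 / ((E : ℂ) - z) ∂μ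

open Classical in
/-- The spectral measure of `δ_x` (almost surely it exists and is unique for all `x`, by
`Stable.spectral`). -/
def specMeasure {d : ℕ} (K : C(UnitAddTorus (Fin d), ℝ)) (V : (Fin d → ℤ) → ℝ)
    (x : Fin d → ℤ) : Measure ℝ :=
  if h : ∃ μ, IsSpectral K V x μ then Classical.choose h else 0

/-- `⟨δ_x, e^(-itH) 1_(a,b)(H) δ_x⟩`, the return amplitude at time `t`. -/
def returnAmplitude {d : ℕ} (K : C(UnitAddTorus (Fin d), ℝ)) (V : (Fin d → ℤ) → ℝ)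
    (x : Fin d → ℤ) (a b t : ℝ) : ℂ :=
  ∫ E in Ioo a b, Complex.exp (-(Complex.I * t * E)) ∂(specMeasure K V x)

/-- `sup |μ(J) - μ'(J)|` over the Borel sets `J` of `(a, b)`. -/
def tvDist (a b : ℝ) (μ μ' : Measure ℝ) : ℝ≥0∞ :=
  ⨆ (J : Set ℝ) (_ : MeasurableSet J) (_ : J ⊆ Ioo a b),
    ENNReal.ofReal |(μ J).toReal - (μ' J).toReal|

/-- The law of i.i.d. pairs `(V_x, V'_x)` with joint law `ρ`. -/
abbrev PairLaw (d : ℕ) (ρ : Measure (ℝ × ℝ)) : Measure ((Fin d → ℤ) → ℝ × ℝ) :=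
  Measure.infinitePi fun _ : Fin d → ℤ => ρ

/-- The potential `V`. -/
def first {d : ℕ} (ω : (Fin d → ℤ) → ℝ × ℝ) : (Fin d → ℤ) → ℝ := fun y => (ω y).1

/-- The potential `V'`. -/
def second {d : ℕ} (ω : (Fin d → ℤ) → ℝ × ℝ) : (Fin d → ℤ) → ℝ := fun y => (ω y).2

/-- The stability properties for pairs of potentials with the law `ρ` of the pairs `(V_x, V'_x)`. -/
structure Stable {d : ℕ} (K : C(UnitAddTorus (Fin d), ℝ)) (ρ : Measure (ℝ × ℝ)) (a b : ℝ)
    (δ : ℕ → ℝ → ℝ) : Prop where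
  /-- The spectral measures exist and are unique. -/
  spectral : ∀ᵐ ω ∂(PairLaw d ρ), ∀ (x : Fin d → ℤ) (μ : Measure ℝ),
    (IsSpectral K (first ω) x μ ↔ μ = specMeasure K (first ω) x) ∧
    (IsSpectral K (second ω) x μ ↔ μ = specMeasure K (second ω) x)
  /-- Stability in total variation. -/
  totalVariation : ∀ (q : ℕ) (e : ℝ), 1 ≤ q → 0 < e → (∀ᵐ s ∂ρ, |s.1 - s.2| ≤ δ q e) →
    ∀ x : Fin d → ℤ, ∫⁻ ω, tvDist a b (specMeasure K (first ω) x)
      (specMeasure K (second ω) x) ^ q ∂(PairLaw d ρ) ≤ ENNReal.ofReal e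
  /-- Stability for all times. -/
  dynamics : ∀ (q : ℕ) (e : ℝ), 1 ≤ q → 0 < e → (∀ᵐ s ∂ρ, |s.1 - s.2| ≤ δ q e) →
    ∀ x : Fin d → ℤ, ∫⁻ ω, (⨆ t : ℝ, ‖returnAmplitude K (first ω) x a b t
      - returnAmplitude K (second ω) x a b t‖ₑ) ^ q ∂(PairLaw d ρ) ≤ ENNReal.ofReal e
  /-- Stability of the density of states. -/
  densityOfStates : ∃ n n' : ℝ → ℝ, ContinuousOn n (Icc a b) ∧ ContinuousOn n' (Icc a b) ∧
    (∀ (x : Fin d → ℤ) (J : Set ℝ), MeasurableSet J → J ⊆ Ioo a b →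
      ∫⁻ ω, specMeasure K (first ω) x J ∂(PairLaw d ρ) = ∫⁻ E in J, ENNReal.ofReal (n E) ∧
      ∫⁻ ω, specMeasure K (second ω) x J ∂(PairLaw d ρ) = ∫⁻ E in J, ENNReal.ofReal (n' E)) ∧
    ∀ e : ℝ, 0 < e → (∀ᵐ s ∂ρ, |s.1 - s.2| ≤ δ 1 e) →
      ∀ E ∈ Icc a b, 0 ≤ n E ∧ 0 ≤ n' E ∧ |n E - n' E| ≤ e

/-- The spread `∬ (s - t)² / ((1 + s²) (1 + t²)) dν(s) dν(t)` of a law. -/
def spread (ν : Measure ℝ) : ℝ :=
  ∫ p : ℝ × ℝ, (p.1 - p.2) ^ 2 / ((1 + p.1 ^ 2) * (1 + p.2 ^ 2)) ∂(ν.prod ν)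

/-- The law of the fair `±1` disorder. -/
def coin : Measure ℝ := (2 : ENNReal)⁻¹ • (Measure.dirac 1 + Measure.dirac (-1))

instance coin_prob : IsProbabilityMeasure coin := by
  refine ⟨?_⟩
  unfold coin
  rw [Measure.smul_apply, Measure.add_apply, measure_univ, measure_univ, smul_eq_mul]
  have e : (1 : ENNReal) + 1 = 2 := by norm_num
  rw [e]
  exact ENNReal.inv_mul_cancel (by norm_num) (by norm_num)

theorem coin_supp : coin (Set.Icc (-1) 1)ᶜ = 0 := by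
  unfold coin
  rw [Measure.smul_apply, Measure.add_apply, Measure.dirac_apply' _ measurableSet_Icc.compl,
    Measure.dirac_apply' _ measurableSet_Icc.compl]
  simp

theorem spread_eq (ν : Measure ℝ) [IsProbabilityMeasure ν] :
    W792.WA.vr ν = 2 * spread ν := by
  rw [Pool.Agent.U281.NP.Vrs.vr_eq Pool.Agent.W792.WA.Al.cay]
  simp_rw [Pool.Agent.U281.NP.Vrs.cay_sub]
  unfold spread
  have : ∀ p : ℝ × ℝ, 4 * (p.1 - p.2) ^ 2 / ((1 + p.1 ^ 2) * (1 + p.2 ^ 2))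
      = 4 * ((p.1 - p.2) ^ 2 / ((1 + p.1 ^ 2) * (1 + p.2 ^ 2))) := fun p => by ring
  simp_rw [this]
  rw [integral_const_mul]
  ring

theorem spread_coin : spread coin = 1 / 2 := by
  have h1 : W792.WA.vr coin = 1 := by
    unfold W792.WA.vr
    have e : ∫ x, W792.LL.cay x ∂coin = 0 := by
      unfold coin
      rw [integral_smul_measure, integral_add_measure (integrable_dirac (by simp))
        (integrable_dirac (by simp)), integral_dirac, integral_dirac]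
      have h2 : W792.LL.cay 1 + W792.LL.cay (-1) = 0 := by
        unfold W792.LL.cay
        have h3 : ((1 : ℝ) : ℂ) - Complex.I ≠ 0 := by
          intro h
          have := congrArg Complex.re h
          simp at this
        have h4 : ((-1 : ℝ) : ℂ) - Complex.I ≠ 0 := by
          intro h
          have := congrArg Complex.re h
          simp at this
        rw [div_add_div _ _ h3 h4, div_eq_zero_iff]
        left
        have := Complex.I_mul_I
        push_cast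
        linear_combination (-2 : ℂ) * this
      rw [h2, smul_zero]
    rw [e]
    simp
  have h2 := spread_eq coin
  rw [h1] at h2
  linarith

theorem isGreen_iff {d : ℕ} (K : C(UnitAddTorus (Fin d), ℝ)) (V : (Fin d → ℤ) → ℝ)
    {z : ℂ} (hz : 0 < z.im) (x : Fin d → ℤ) (u : (Fin d → ℤ) → ℂ) :
    IsGreen K V z x u ↔ u = U281.LAP.Gr K 1 V z x := by
  rw [← U281.LAP.Gr_iff K 1 V hz x u]
  have h : ∀ y, H K V u y = (∑' y', hopping K (y - y') * u y')
      + ((1 * V y : ℝ) : ℂ) * u y := by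
    intro y
    unfold H
    rw [one_mul]
  unfold IsGreen
  simp_rw [h]
  exact Iff.rfl

theorem isSpectral_iff {d : ℕ} (K : C(UnitAddTorus (Fin d), ℝ)) (V : (Fin d → ℤ) → ℝ)
    (x : Fin d → ℤ) (μ : Measure ℝ) : IsSpectral K V x μ ↔ IsFiniteMeasure μ ∧
      ∀ z : ℂ, 0 < z.im → U281.LAP.Gr K 1 V z x x = ∫ E : ℝ, 1 / ((E : ℂ) - z) ∂μ := by
  constructor
  · rintro ⟨h1, h2⟩
    refine ⟨h1, fun z hz => ?_⟩
    exact (h2 z hz).2 _ ((isGreen_iff K V hz x _).2 rfl)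
  · rintro ⟨h1, h2⟩
    refine ⟨h1, fun z hz => ⟨⟨_, (isGreen_iff K V hz x _).2 rfl, fun u hu =>
      (isGreen_iff K V hz x u).1 hu⟩, fun u hu => ?_⟩⟩
    rw [(isGreen_iff K V hz x u).1 hu]
    exact h2 z hz

theorem specMeasure_spec {d : ℕ} {K : C(UnitAddTorus (Fin d), ℝ)} {V : (Fin d → ℤ) → ℝ}
    {x : Fin d → ℤ} {μ : Measure ℝ} (h : IsSpectral K V x μ) : specMeasure K V x = μ := by
  have hex : ∃ μ, IsSpectral K V x μ := ⟨μ, h⟩
  have h1 : IsSpectral K V x (specMeasure K V x) := by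
    unfold specMeasure
    rw [dif_pos hex]
    exact Classical.choose_spec hex
  rw [isSpectral_iff] at h h1
  have := h.1
  have := h1.1
  exact U281.WG.uni _ _ fun z hz => by rw [← h.2 z hz, ← h1.2 z hz]

/-- The density of states of one law. -/
theorem dos_one {d : ℕ} {ν : Measure ℝ} [IsProbabilityMeasure ν] {a b : ℝ} {C : ℕ → ℝ}
    {θ : ℕ → ℝ → ℝ} (hθ : ∀ q e, 0 < e → 0 < θ q e)
    {D : (Fin d → ℤ) → ((Fin d → ℤ) → ℝ) → ℝ → ℝ}
    (hD1 : ∀ x, Measurable (Function.uncurry (D x))) (hD2 : ∀ x ω E, 0 ≤ D x ω E)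
    (hD4 : ∀ q : ℕ, 1 ≤ q → ∀ (x : Fin d → ℤ) (E : ℝ), a ≤ E → E ≤ b →
      ∫⁻ ω, ENNReal.ofReal (D x ω E) ^ q ∂(W792.WA.Pn ν (Fin d → ℤ)) ≤ ENNReal.ofReal (C q))
    (hD6 : ∀ (q : ℕ) (e : ℝ), 1 ≤ q → 0 < e → ∀ (x : Fin d → ℤ) (E E' : ℝ), a ≤ E → E ≤ b →
      a ≤ E' → E' ≤ b → |E - E'| ≤ θ q (e / 3 ^ (q + 1)) →
      ∫⁻ ω, ENNReal.ofReal |D x ω E - D x ω E'| ^ q ∂(W792.WA.Pn ν (Fin d → ℤ))
        ≤ ENNReal.ofReal e)
    (hD7 : ∀ (x : Fin d → ℤ) (E : ℝ), a ≤ E → E ≤ b →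
      ∫⁻ ω, ENNReal.ofReal (D x ω E) ∂(W792.WA.Pn ν (Fin d → ℤ))
        = ∫⁻ ω, ENNReal.ofReal (D 0 ω E) ∂(W792.WA.Pn ν (Fin d → ℤ))) :
    ∃ n : ℝ → ℝ, (∀ E, 0 ≤ n E) ∧ ContinuousOn n (Icc a b) ∧
      ∀ (x : Fin d → ℤ) (E : ℝ), a ≤ E → E ≤ b →
        ∫⁻ ω, ENNReal.ofReal (D x ω E) ∂(W792.WA.Pn ν (Fin d → ℤ)) = ENNReal.ofReal (n E) := by
  obtain ⟨n, hn⟩ : ∃ n : ℝ → ℝ, n = fun E =>
      (∫⁻ ω, ENNReal.ofReal (D 0 ω E) ∂(W792.WA.Pn ν (Fin d → ℤ))).toReal := ⟨_, rfl⟩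
  have hfin : ∀ (x : Fin d → ℤ) (E : ℝ), a ≤ E → E ≤ b →
      ∫⁻ ω, ENNReal.ofReal (D x ω E) ∂(W792.WA.Pn ν (Fin d → ℤ)) ≤ ENNReal.ofReal (C 1) := by
    intro x E ha hb
    have := hD4 1 le_rfl x E ha hb
    simpa only [pow_one] using this
  have hn0 : ∀ E, 0 ≤ n E := fun E => by rw [hn]; exact ENNReal.toReal_nonneg
  have hnE : ∀ (x : Fin d → ℤ) (E : ℝ), a ≤ E → E ≤ b →
      ∫⁻ ω, ENNReal.ofReal (D x ω E) ∂(W792.WA.Pn ν (Fin d → ℤ)) = ENNReal.ofReal (n E) := by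
    intro x E ha hb
    rw [hn]
    rw [ENNReal.ofReal_toReal (ne_top_of_le_ne_top ENNReal.ofReal_ne_top (hfin 0 E ha hb))]
    exact hD7 x E ha hb
  have hcont : ∀ e : ℝ, 0 < e → ∀ E E' : ℝ, a ≤ E → E ≤ b → a ≤ E' → E' ≤ b →
      |E - E'| ≤ θ 1 (e / 3 ^ (1 + 1)) → n E ≤ n E' + e := by
    intro e he E E' ha hb ha' hb' hE
    have h5 := U281.WG.ofReal_near (W792.WA.Pn ν (Fin d → ℤ)) (fun ω => D 0 ω E)
      (fun ω => D 0 ω E') (hD1 0).of_uncurry_right (fun ω => hD2 0 ω E') e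
      (hD6 1 e le_rfl he 0 E E' ha hb ha' hb' hE)
    rw [hnE 0 E ha hb, hnE 0 E' ha' hb', ← ENNReal.ofReal_add (hn0 E') he.le,
      ENNReal.ofReal_le_ofReal_iff (add_nonneg (hn0 E') he.le)] at h5
    exact h5
  refine ⟨n, hn0, ?_, hnE⟩
  refine Metric.continuousOn_iff.2 fun E hE e he => ?_
  refine ⟨θ 1 (e / 2 / 3 ^ (1 + 1)), hθ 1 _ (by positivity), fun E' hE' hd => ?_⟩
  rw [Real.dist_eq] at hd ⊢
  rw [abs_lt]
  constructor
  · have := hcont (e / 2) (by positivity) E E' hE.1 hE.2 hE'.1 hE'.2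
      (by rw [abs_sub_comm]; exact hd.le)
    linarith
  · have := hcont (e / 2) (by positivity) E' E hE'.1 hE'.2 hE.1 hE.2 hd.le
    linarith

/-- Let `K` be a continuous real function on `T^d`, `d ≥ 1`, let `a < b`, `1 < p < 2`,
`0 ≤ g < d / 3`, `κ, ε > 0`. There are a continuous function `f` with
`∫ |f(λ(k))|^p dk ≤ ε`, `λ` the symbol of `-Δ`, and hopping amplitudes of `f(-Δ)` at most
`ε / (1 + |x|) ^ g`, `|x| = max |x_i|`, and positive numbers `δ q e` such that the stability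
properties `Stable` hold with these `δ q e` for `K + f(-Δ) + V` and `K + f(-Δ) + V'`, for all laws `ρ`
of the i.i.d. pairs `(V_x, V'_x)` whose marginals have spread at least `κ`. The fair `±1` law is a
law on `[-1, 1]` with spread `1 / 2`. -/
theorem result (d : ℕ) (hd : 0 < d) (K : C(UnitAddTorus (Fin d), ℝ)) (a b p g κ ε : ℝ)
    (hab : a < b) (hp1 : 1 < p) (hp2 : p < 2) (hg0 : 0 ≤ g) (hg : g < (d : ℝ) / 3) (hκ : 0 < κ)
    (hε : 0 < ε) :
    (coin (Set.Icc (-1) 1)ᶜ = 0 ∧ spread coin = 1 / 2) ∧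
    ∃ f : C(ℝ, ℝ), (∫ k : UnitAddTorus (Fin d), |f (lapSymbol d k)| ^ p ≤ ε) ∧
      (∀ x : Fin d → ℤ, ‖hopping (f.comp (lapSymbol d)) x‖ ≤ ε / (1 + ‖x‖) ^ g) ∧
      ∃ δ : ℕ → ℝ → ℝ, (∀ q e, 0 < e → 0 < δ q e) ∧
        ∀ (ρ : Measure (ℝ × ℝ)) [IsProbabilityMeasure ρ], κ ≤ spread (ρ.map Prod.fst) →
          κ ≤ spread (ρ.map Prod.snd) → Stable (K + f.comp (lapSymbol d)) ρ a b δ := by
  refine ⟨⟨coin_supp, spread_coin⟩, ?_⟩
  have hκ' : 0 < min κ 1 := lt_min hκ one_pos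
  obtain ⟨f, h1, h2, C, θ, hC, hθ, h3⟩ :=
    U281.LU.fin d K a b p g (min κ 1) ε hd hab hp1 hp2 hg0 hg hκ' hε
  have hd' : (0 : ℝ) < d := by exact_mod_cast hd
  have hba : 0 < b - a := by linarith
  obtain ⟨η, hηd⟩ : ∃ η, η = (b - a) / (4 * d) := ⟨_, rfl⟩
  have hη : 0 < η := by rw [hηd]; exact div_pos hba (by positivity)
  rw [← hηd] at h3
  obtain ⟨m, hm⟩ : ∃ m : ℕ → ℝ, m = fun q => max 1 ((b - a) ^ q) := ⟨_, rfl⟩
  have hm1 : ∀ q, 1 ≤ m q := fun q => by rw [hm]; exact le_max_left _ _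
  have hm2 : ∀ q, (b - a) ^ q ≤ m q := fun q => by rw [hm]; exact le_max_right _ _
  have hm0 : ∀ q, 0 < m q := fun q => one_pos.trans_le (hm1 q)
  refine ⟨f, h1, h2, fun q e => U281.WG.dlt η θ q (e / m q), fun q e he =>
    U281.WG.dlt_pos hη hθ q (div_pos he (hm0 q)), fun ρ _ hρ1 hρ2 => ?_⟩
  have i1 : IsProbabilityMeasure (ρ.map Prod.fst) :=
    Measure.isProbabilityMeasure_map measurable_fst.aemeasurable
  have i2 : IsProbabilityMeasure (ρ.map Prod.snd) :=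
    Measure.isProbabilityMeasure_map measurable_snd.aemeasurable
  have i3 : IsProbabilityMeasure ((ρ.map Prod.fst).map fun t => 1 * t) :=
    Measure.isProbabilityMeasure_map (by fun_prop)
  have i4 : IsProbabilityMeasure ((ρ.map Prod.snd).map fun t => 1 * t) :=
    Measure.isProbabilityMeasure_map (by fun_prop)
  have hl1 : min κ 1 ≤ |(1 : ℝ)| := by rw [abs_one]; exact min_le_right _ _
  have hl2 : |(1 : ℝ)| ≤ 1 / min κ 1 := by
    rw [abs_one, le_div_iff₀ hκ', one_mul]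
    exact min_le_right _ _
  have hv1 : min κ 1 ≤ W792.WA.vr (ρ.map Prod.fst) := by
    rw [spread_eq]
    have := min_le_left κ 1
    linarith
  have hv2 : min κ 1 ≤ W792.WA.vr (ρ.map Prod.snd) := by
    rw [spread_eq]
    have := min_le_left κ 1
    linarith
  obtain ⟨D, hD1, hD2, hD3, hD4, hD5, hD6, hD7⟩ :=
    U281.WG.main hη hC hθ (h3 (ρ.map Prod.fst) hv1 1 hl1 hl2)
  obtain ⟨D', hD1', hD2', hD3', hD4', hD5', hD6', hD7'⟩ :=
    U281.WG.main hη hC hθ (h3 (ρ.map Prod.snd) hv2 1 hl1 hl2)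
  have mp1 := U281.WG.fst_mp (d := d) ρ
  have mp2 := U281.WG.snd_mp (d := d) ρ
  have hsp1 : ∀ᵐ ω ∂(PairLaw d ρ), ∀ x : Fin d → ℤ,
      IsSpectral (K + f.comp (lapSymbol d)) (first ω) x
        (specMeasure (K + f.comp (lapSymbol d)) (first ω) x) ∧
      (specMeasure (K + f.comp (lapSymbol d)) (first ω) x).restrict (Ioo a b)
        = (volume.restrict (Ioo a b)).withDensity
          fun E => ENNReal.ofReal (D x (first ω) E) := by
    filter_upwards [mp1.quasiMeasurePreserving.ae hD3] with ω hω x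
    obtain ⟨μ, hμ1, hμ2, hμ3⟩ := hω x
    have hs : IsSpectral (K + f.comp (lapSymbol d)) (first ω) x μ :=
      (isSpectral_iff _ _ x μ).2 ⟨hμ1, hμ2⟩
    rw [specMeasure_spec hs]
    exact ⟨hs, hμ3⟩
  have hsp2 : ∀ᵐ ω ∂(PairLaw d ρ), ∀ x : Fin d → ℤ,
      IsSpectral (K + f.comp (lapSymbol d)) (second ω) x
        (specMeasure (K + f.comp (lapSymbol d)) (second ω) x) ∧
      (specMeasure (K + f.comp (lapSymbol d)) (second ω) x).restrict (Ioo a b)
        = (volume.restrict (Ioo a b)).withDensity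
          fun E => ENNReal.ofReal (D' x (second ω) E) := by
    filter_upwards [mp2.quasiMeasurePreserving.ae hD3'] with ω hω x
    obtain ⟨μ, hμ1, hμ2, hμ3⟩ := hω x
    have hs : IsSpectral (K + f.comp (lapSymbol d)) (second ω) x μ :=
      (isSpectral_iff _ _ x μ).2 ⟨hμ1, hμ2⟩
    rw [specMeasure_spec hs]
    exact ⟨hs, hμ3⟩
  -- joint measurability
  have hj1 : ∀ x, Measurable (Function.uncurry fun (ω : (Fin d → ℤ) → ℝ × ℝ) (E : ℝ) =>
      D x (first ω) E) := fun x =>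
    (hD1 x).comp ((mp1.measurable.comp measurable_fst).prodMk measurable_snd)
  have hj2 : ∀ x, Measurable (Function.uncurry fun (ω : (Fin d → ℤ) → ℝ × ℝ) (E : ℝ) =>
      D' x (second ω) E) := fun x =>
    (hD1' x).comp ((mp2.measurable.comp measurable_fst).prodMk measurable_snd)
  -- moments of the integrated difference
  have hpair : ∀ (q : ℕ) (e : ℝ), 1 ≤ q → 0 < e →
      (∀ᵐ s ∂ρ, |s.1 - s.2| ≤ U281.WG.dlt η θ q e) → ∀ (x : Fin d → ℤ) (E : ℝ), a ≤ E → E ≤ b →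
      ∫⁻ ω, ENNReal.ofReal |D x (first ω) E - D' x (second ω) E| ^ q ∂(PairLaw d ρ)
        ≤ ENNReal.ofReal e := fun q e hq he hs x E ha hb =>
    U281.WG.pair ρ hη hθ D D' hD1 hD1' hD5 hD5' q hq e he hs x E ha hb
  have hR : ∀ (q : ℕ) (e : ℝ), 1 ≤ q → 0 < e →
      (∀ᵐ s ∂ρ, |s.1 - s.2| ≤ U281.WG.dlt η θ q (e / m q)) → ∀ x : Fin d → ℤ,
      ∫⁻ ω, (∫⁻ E in Ioo a b, ENNReal.ofReal |D x (first ω) E - D' x (second ω) E|) ^ q
        ∂(PairLaw d ρ) ≤ ENNReal.ofReal e := by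
    intro q e hq he hs x
    have hem : 0 < e / m q := div_pos he (hm0 q)
    refine (U281.WG.up_set (PairLaw d ρ)
      (fun ω E => ENNReal.ofReal |D x (first ω) E - D' x (second ω) E|)
      (((hj1 x).sub (hj2 x)).abs.ennreal_ofReal) (a := a) (b := b) q hq
      (ENNReal.ofReal (e / m q)) (fun E ha hb => hpair q (e / m q) hq hem hs x E ha hb)
      (Ioo a b) measurableSet_Ioo Ioo_subset_Icc_self).trans ?_
    rw [Real.volume_Ioo, ← ENNReal.ofReal_pow hba.le, ← ENNReal.ofReal_mul hem.le]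
    apply ENNReal.ofReal_le_ofReal
    rw [div_mul_eq_mul_div, div_le_iff₀ (hm0 q)]
    exact mul_le_mul_of_nonneg_left (hm2 q) he.le
  refine ⟨?_, fun q e hq he hs x => ?_, fun q e hq he hs x => ?_, ?_⟩
  · filter_upwards [hsp1, hsp2] with ω hω1 hω2 x μ
    refine ⟨⟨fun h => (specMeasure_spec h).symm, fun h => ?_⟩,
      ⟨fun h => (specMeasure_spec h).symm, fun h => ?_⟩⟩
    · rw [h]
      exact (hω1 x).1
    · rw [h]
      exact (hω2 x).1
  · refine (lintegral_mono_ae ?_).trans (hR q e hq he hs x)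
    filter_upwards [hsp1, hsp2] with ω hω1 hω2
    have := ((isSpectral_iff _ _ _ _).1 (hω1 x).1).1
    have := ((isSpectral_iff _ _ _ _).1 (hω2 x).1).1
    refine pow_le_pow_left₀ (zero_le) ?_ q
    unfold tvDist
    refine iSup_le fun J => iSup_le fun hJ => iSup_le fun hJs => ?_
    exact U281.WG.mass_sub ((hj1 x).of_uncurry_left (x := ω)) ((hj2 x).of_uncurry_left (x := ω))
      (fun E => hD2 x _ E) (fun E => hD2' x _ E) (hω1 x).2 (hω2 x).2 hJ hJs
  · refine (lintegral_mono_ae ?_).trans (hR q e hq he hs x)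
    filter_upwards [hsp1, hsp2] with ω hω1 hω2
    have := ((isSpectral_iff _ _ _ _).1 (hω1 x).1).1
    have := ((isSpectral_iff _ _ _ _).1 (hω2 x).1).1
    refine pow_le_pow_left₀ (zero_le) ?_ q
    refine iSup_le fun t => ?_
    exact U281.WG.amp_sub ((hj1 x).of_uncurry_left (x := ω)) ((hj2 x).of_uncurry_left (x := ω))
      (fun E => hD2 x _ E) (fun E => hD2' x _ E) (hω1 x).2 (hω2 x).2 t
  · obtain ⟨n, hn0, hnc, hnE⟩ := dos_one hθ hD1 hD2
      (fun q hq x E ha hb => (hD4 q hq x E ha hb).1) hD6 hD7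
    obtain ⟨n', hn0', hnc', hnE'⟩ := dos_one hθ hD1' hD2'
      (fun q hq x E ha hb => (hD4' q hq x E ha hb).1) hD6' hD7'
    have hE1 : ∀ (x : Fin d → ℤ) (E : ℝ), a ≤ E → E ≤ b →
        ∫⁻ ω, ENNReal.ofReal (D x (first ω) E) ∂(PairLaw d ρ) = ENNReal.ofReal (n E) := by
      intro x E ha hb
      rw [← hnE x E ha hb]
      exact mp1.lintegral_comp (hD1 x).of_uncurry_right.ennreal_ofReal
    have hE2 : ∀ (x : Fin d → ℤ) (E : ℝ), a ≤ E → E ≤ b →
        ∫⁻ ω, ENNReal.ofReal (D' x (second ω) E) ∂(PairLaw d ρ) = ENNReal.ofReal (n' E) := by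
      intro x E ha hb
      rw [← hnE' x E ha hb]
      exact mp2.lintegral_comp (hD1' x).of_uncurry_right.ennreal_ofReal
    refine ⟨n, n', hnc, hnc', fun x J hJ hJs => ⟨?_, ?_⟩, fun e he hs E hE =>
      ⟨hn0 E, hn0' E, ?_⟩⟩
    · exact U281.WG.mean_dens (PairLaw d ρ) (fun ω E => D x (first ω) E) (hj1 x)
        (fun E => ENNReal.ofReal (n E))
        (fun ω => specMeasure (K + f.comp (lapSymbol d)) (first ω) x)
        (by filter_upwards [hsp1] with ω hω; exact (hω x).2) (fun E ha hb => hE1 x E ha hb) J hJ hJs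
    · exact U281.WG.mean_dens (PairLaw d ρ) (fun ω E => D' x (second ω) E) (hj2 x)
        (fun E => ENNReal.ofReal (n' E))
        (fun ω => specMeasure (K + f.comp (lapSymbol d)) (second ω) x)
        (by filter_upwards [hsp2] with ω hω; exact (hω x).2) (fun E ha hb => hE2 x E ha hb) J hJ hJs
    · have hem : 0 < e / m 1 := div_pos he (hm0 1)
      have hee : e / m 1 ≤ e := div_le_self he.le (hm1 1)
      have k := hpair 1 (e / m 1) le_rfl hem hs 0 E hE.1 hE.2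
      have k' : ∫⁻ ω, ENNReal.ofReal |D' 0 (second ω) E - D 0 (first ω) E| ^ 1 ∂(PairLaw d ρ)
          ≤ ENNReal.ofReal (e / m 1) := by
        simp only [abs_sub_comm (D' 0 (second _) E)]
        exact k
      have k1 := U281.WG.ofReal_near (PairLaw d ρ) (fun ω => D 0 (first ω) E)
        (fun ω => D' 0 (second ω) E) (hj2 0).of_uncurry_right (fun ω => hD2' 0 _ E) _ k
      have k2 := U281.WG.ofReal_near (PairLaw d ρ) (fun ω => D' 0 (second ω) E)
        (fun ω => D 0 (first ω) E) (hj1 0).of_uncurry_right (fun ω => hD2 0 _ E) _ k'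
      rw [hE1 0 E hE.1 hE.2, hE2 0 E hE.1 hE.2, ← ENNReal.ofReal_add (hn0' E) hem.le,
        ENNReal.ofReal_le_ofReal_iff (add_nonneg (hn0' E) hem.le)] at k1
      rw [hE1 0 E hE.1 hE.2, hE2 0 E hE.1 hE.2, ← ENNReal.ofReal_add (hn0 E) hem.le,
        ENNReal.ofReal_le_ofReal_iff (add_nonneg (hn0 E) hem.le)] at k2
      rw [abs_le]
      constructor <;> linarith

end

end Pool.Agent.Results.MP_d0f69c_mp.StabilityAllTimes
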