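import Pool.Agent.U281.LU.Fin
import Pool.Agent.U281.WG.Fin

set_option autoImplicit false

/-!
# Bernoulli disorder of any strength: a two-sided Wegner estimate, the density of states and
# square integrable return amplitudes

Let `K` be any continuous real function on the torus `T^d`, `d ≥ 1`, for instance the symbol of
`-Δ`, let `[a, b]` be any bounded interval, `1 < p < 2`, `0 ≤ g < d / 3`, `κ, ε > 0`. There
are a continuous function `f` with `∫ |f(λ(k))|^p dk ≤ ε`, `λ` the symbol of `-Δ`, and with hopping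
amplitudes of `f(-Δ)` at most `ε / (1 + |x|) ^ g`, and constants such that for ALL laws of the
disorder with spread at least `κ`, in particular for the fair `±1` law (spread `1/2`), and for ALL
couplings `κ ≤ |λ| ≤ 1 / κ`, the operator `H = K + f(-Δ) + λ V_ω` has the following properties.
Let `μ_x` be the spectral measure of `δ_x` and `w_x = 1 + (λ ω_x)²`.

* For all measurable `J ⊆ (a, b)` of positive length `|J|` and all integers `q ≥ 1`,
  `E μ_x(J)^q ≤ C_q |J|^q` and `E (w_x μ_x(J))^(-q) ≤ C_q |J|^(-q)`: the spectral measure of a set,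
  however small, is comparable to its length, with all positive and negative moments.
* The same bounds hold for the local density of states at each single energy of `[a, b]`, which is
  the limit of `Im G(x, x; E + i η) / π` and is uniformly continuous in the energy, in every `L^q`.
* The mean `E μ_x` has on `(a, b)` a density `n`, the same for all sites, with modulus of continuity
  `θ` and with `n ≥ c > 0`.
* The return amplitude `r(t) = ⟨δ_x, e^(-itH) 1_(a,b)(H) δ_x⟩` is square integrable in time, with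
  `E (∫ |r(t)|² dt)^q ≤ C_q`.
-/

namespace Pool.Agent.Results.MP_d0f69c_mp.WegnerBernoulli

open MeasureTheory Set
open scoped ENNReal

noncomputable section

/-- The symbol `∑ i (2 - 2 cos (2 π k_i))` of `-Δ` on `ℤ^d`. -/
def lapSymbol (d : ℕ) : C(UnitAddTorus (Fin d), ℝ) where
  toFun k := ∑ i, (2 - 2 * (fourier 1 (k i)).re)
  continuous_toFun := by fun_prop

/-- The hopping amplitudes of the translation invariant operator with symbol `K`. -/
def hopping {d : ℕ} (K : C(UnitAddTorus (Fin d), ℝ)) (x : Fin d → ℤ) : ℂ :=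
  UnitAddTorus.mFourierCoeff (fun k : UnitAddTorus (Fin d) => ((K k : ℝ) : ℂ)) x

/-- `((K + lam V_ω) u) (y)`. -/
def H {d : ℕ} (K : C(UnitAddTorus (Fin d), ℝ)) (lam : ℝ) (ω : (Fin d → ℤ) → ℝ)
    (u : (Fin d → ℤ) → ℂ) (y : Fin d → ℤ) : ℂ :=
  (∑' y', hopping K (y - y') * u y') + ((lam * ω y : ℝ) : ℂ) * u y

/-- `u` is square summable and `(H - z) u = δ_x`, i.e. `u = (H - z)⁻¹ δ_x`. -/
def IsGreen {d : ℕ} (K : C(UnitAddTorus (Fin d), ℝ)) (lam : ℝ) (ω : (Fin d → ℤ) → ℝ) (z : ℂ)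
    (x : Fin d → ℤ) (u : (Fin d → ℤ) → ℂ) : Prop :=
  Summable (fun y => ‖u y‖ ^ 2) ∧ ∀ y, H K lam ω u y - z * u y = if y = x then 1 else 0

open Classical in
/-- `(H - z)⁻¹ δ_x`, a function on `ℤ^d` (it exists and is unique by `Wegner.resolvent`). -/
def green {d : ℕ} (K : C(UnitAddTorus (Fin d), ℝ)) (lam : ℝ) (ω : (Fin d → ℤ) → ℝ) (z : ℂ)
    (x : Fin d → ℤ) : (Fin d → ℤ) → ℂ :=
  if h : ∃ u, IsGreen K lam ω z x u then Classical.choose h else 0

/-- The law of the disorder: `ω` is i.i.d. with law `ν`. -/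
abbrev Law (d : ℕ) (ν : Measure ℝ) : Measure ((Fin d → ℤ) → ℝ) :=
  Measure.infinitePi fun _ : Fin d → ℤ => ν

/-- The strip `a ≤ Re z ≤ b`, `0 < Im z ≤ η`. -/
def Strip (a b η : ℝ) : Set ℂ := {z | a ≤ z.re ∧ z.re ≤ b ∧ 0 < z.im ∧ z.im ≤ η}

/-- `μ` is the spectral measure of `δ_x`: `⟨δ_x, (H - z)⁻¹ δ_x⟩ = ∫ dμ(E) / (E - z)`. -/
def IsSpectral {d : ℕ} (K : C(UnitAddTorus (Fin d), ℝ)) (lam : ℝ) (ω : (Fin d → ℤ) → ℝ)
    (x : Fin d → ℤ) (μ : Measure ℝ) : Prop :=
  IsFiniteMeasure μ ∧ ∀ z : ℂ, 0 < z.im → green K lam ω z x x = ∫ E : ℝ, 1 / ((E : ℂ) - z) ∂μ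

open Classical in
/-- The spectral measure of `δ_x` (almost surely it exists and is unique for all `x`, by
`Wegner.spectral`). -/
def specMeasure {d : ℕ} (K : C(UnitAddTorus (Fin d), ℝ)) (lam : ℝ) (ω : (Fin d → ℤ) → ℝ)
    (x : Fin d → ℤ) : Measure ℝ :=
  if h : ∃ μ, IsSpectral K lam ω x μ then Classical.choose h else 0

/-- `1 + (lam ω_x)²` -/
def weight {d : ℕ} (lam : ℝ) (ω : (Fin d → ℤ) → ℝ) (x : Fin d → ℤ) : ℝ≥0∞ :=
  ENNReal.ofReal (1 + (lam * ω x) ^ 2)

/-- `⟨δ_x, e^(-itH) 1_(a,b)(H) δ_x⟩`, the return amplitude at time `t`. -/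
def returnAmplitude {d : ℕ} (K : C(UnitAddTorus (Fin d), ℝ)) (lam : ℝ) (ω : (Fin d → ℤ) → ℝ)
    (x : Fin d → ℤ) (a b t : ℝ) : ℂ :=
  ∫ E in Ioo a b, Complex.exp (-(Complex.I * t * E)) ∂(specMeasure K lam ω x)

/-- The list of the properties, with constants `C q`, moduli `θ q e` and lower bounds `c W`. -/
structure Wegner {d : ℕ} (K : C(UnitAddTorus (Fin d), ℝ)) (lam : ℝ) (ν : Measure ℝ)
    (a b η : ℝ) (C : ℕ → ℝ) (θ : ℕ → ℝ → ℝ) (c : ℝ → ℝ) : Prop where
  /-- The resolvent is well defined and depends measurably on the disorder. -/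
  resolvent : ∀ z : ℂ, 0 < z.im → ∀ x : Fin d → ℤ,
    (∀ ω u, IsGreen K lam ω z x u ↔ u = green K lam ω z x) ∧
      ∀ y, Measurable fun ω => green K lam ω z x y
  /-- The spectral measures exist and are unique. -/
  spectral : ∀ᵐ ω ∂(Law d ν), ∀ (x : Fin d → ℤ) (μ : Measure ℝ),
    IsSpectral K lam ω x μ ↔ μ = specMeasure K lam ω x
  /-- The two-sided Wegner estimate. -/
  wegner : ∀ q : ℕ, 1 ≤ q → ∀ (x : Fin d → ℤ) (J : Set ℝ), MeasurableSet J → J ⊆ Ioo a b →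
    0 < volume J →
    ∫⁻ ω, specMeasure K lam ω x J ^ q ∂(Law d ν) ≤ ENNReal.ofReal (C q) * volume J ^ q ∧
    ∫⁻ ω, (weight lam ω x * specMeasure K lam ω x J)⁻¹ ^ q ∂(Law d ν)
      ≤ ENNReal.ofReal (C q) * (volume J)⁻¹ ^ q
  /-- The local density of states at every energy: it is almost surely the density of the spectral
  measure, it has the same bounds, it is the limit of `Im G / π`, and it is uniformly continuous. -/
  localDensity : ∃ D : (Fin d → ℤ) → ((Fin d → ℤ) → ℝ) → ℝ → ℝ,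
    (∀ x, Measurable (Function.uncurry (D x))) ∧ (∀ x ω E, 0 ≤ D x ω E) ∧
    (∀ᵐ ω ∂(Law d ν), ∀ x : Fin d → ℤ, (specMeasure K lam ω x).restrict (Ioo a b)
      = (volume.restrict (Ioo a b)).withDensity fun E => ENNReal.ofReal (D x ω E)) ∧
    (∀ q : ℕ, 1 ≤ q → ∀ (x : Fin d → ℤ) (E : ℝ), a ≤ E → E ≤ b →
      ∫⁻ ω, ENNReal.ofReal (D x ω E) ^ q ∂(Law d ν) ≤ ENNReal.ofReal (C q) ∧
      ∫⁻ ω, (weight lam ω x * ENNReal.ofReal (D x ω E))⁻¹ ^ q ∂(Law d ν)
        ≤ ENNReal.ofReal (C q)) ∧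
    (∀ (q : ℕ) (e : ℝ), 1 ≤ q → 0 < e → ∀ x : Fin d → ℤ, ∀ z ∈ Strip a b η, z.im ≤ θ q e →
      ∫⁻ ω, ENNReal.ofReal |(green K lam ω z x x).im / Real.pi - D x ω z.re| ^ q ∂(Law d ν)
        ≤ ENNReal.ofReal e) ∧
    (∀ (q : ℕ) (e : ℝ), 1 ≤ q → 0 < e → ∀ (x : Fin d → ℤ) (E E' : ℝ), a ≤ E → E ≤ b →
      a ≤ E' → E' ≤ b → |E - E'| ≤ θ q e →
      ∫⁻ ω, ENNReal.ofReal |D x ω E - D x ω E'| ^ q ∂(Law d ν) ≤ ENNReal.ofReal e)
  /-- The density of states. -/
  densityOfStates : ∃ n : ℝ → ℝ,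
    (∀ (x : Fin d → ℤ) (J : Set ℝ), MeasurableSet J → J ⊆ Ioo a b →
      ∫⁻ ω, specMeasure K lam ω x J ∂(Law d ν) = ∫⁻ E in J, ENNReal.ofReal (n E)) ∧
    (∀ e : ℝ, 0 < e → ∀ E E' : ℝ, a ≤ E → E ≤ b → a ≤ E' → E' ≤ b → |E - E'| ≤ θ 1 e →
      |n E - n E'| ≤ e) ∧
    ∀ E : ℝ, a ≤ E → E ≤ b → 0 ≤ n E ∧ n E ≤ C 1 ∧
      ∀ W : ℝ, 2⁻¹ ≤ ν (Icc (-W) W) → c W ≤ n E
  /-- Return amplitudes are square integrable in time. -/
  returns : ∀ q : ℕ, 1 ≤ q → ∀ x : Fin d → ℤ,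
    ∫⁻ ω, (∫⁻ t : ℝ, ‖returnAmplitude K lam ω x a b t‖ₑ ^ 2) ^ q ∂(Law d ν)
      ≤ ENNReal.ofReal (C q)

/-- The spread `∬ (s - t)² / ((1 + s²) (1 + t²)) dν(s) dν(t)` of a law. -/
def spread (ν : Measure ℝ) : ℝ :=
  ∫ p : ℝ × ℝ, (p.1 - p.2) ^ 2 / ((1 + p.1 ^ 2) * (1 + p.2 ^ 2)) ∂(ν.prod ν)

/-- The law of the fair `±1` disorder. -/
def coin : Measure ℝ := (2 : ENNReal)⁻¹ • (Measure.dirac 1 + Measure.dirac (-1))

instance coin_prob : IsProbabilityMeasure coin := by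
  refine ⟨?_⟩
  unfold coin
  rw [Measure.smul_apply, Measure.add_apply, measure_univ, measure_univ, smul_eq_mul]
  have e : (1 : ENNReal) + 1 = 2 := by norm_num
  rw [e]
  exact ENNReal.inv_mul_cancel (by norm_num) (by norm_num)

theorem coin_supp : coin (Set.Icc (-1) 1)ᶜ = 0 := by
  unfold coin
  rw [Measure.smul_apply, Measure.add_apply, Measure.dirac_apply' _ measurableSet_Icc.compl,
    Measure.dirac_apply' _ measurableSet_Icc.compl]
  simp

theorem spread_eq (ν : Measure ℝ) [IsProbabilityMeasure ν] :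
    W792.WA.vr ν = 2 * spread ν := by
  rw [Pool.Agent.U281.NP.Vrs.vr_eq Pool.Agent.W792.WA.Al.cay]
  simp_rw [Pool.Agent.U281.NP.Vrs.cay_sub]
  unfold spread
  have : ∀ p : ℝ × ℝ, 4 * (p.1 - p.2) ^ 2 / ((1 + p.1 ^ 2) * (1 + p.2 ^ 2))
      = 4 * ((p.1 - p.2) ^ 2 / ((1 + p.1 ^ 2) * (1 + p.2 ^ 2))) := fun p => by ring
  simp_rw [this]
  rw [integral_const_mul]
  ring

theorem spread_coin : spread coin = 1 / 2 := by
  have h1 : W792.WA.vr coin = 1 := by
    unfold W792.WA.vr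
    have e : ∫ x, W792.LL.cay x ∂coin = 0 := by
      unfold coin
      rw [integral_smul_measure, integral_add_measure (integrable_dirac (by simp))
        (integrable_dirac (by simp)), integral_dirac, integral_dirac]
      have h2 : W792.LL.cay 1 + W792.LL.cay (-1) = 0 := by
        unfold W792.LL.cay
        have h3 : ((1 : ℝ) : ℂ) - Complex.I ≠ 0 := by
          intro h
          have := congrArg Complex.re h
          simp at this
        have h4 : ((-1 : ℝ) : ℂ) - Complex.I ≠ 0 := by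
          intro h
          have := congrArg Complex.re h
          simp at this
        rw [div_add_div _ _ h3 h4, div_eq_zero_iff]
        left
        have := Complex.I_mul_I
        push_cast
        linear_combination (-2 : ℂ) * this
      rw [h2, smul_zero]
    rw [e]
    simp
  have h2 := spread_eq coin
  rw [h1] at h2
  linarith

theorem isGreen_iff {d : ℕ} (K : C(UnitAddTorus (Fin d), ℝ)) (lam : ℝ) (ω : (Fin d → ℤ) → ℝ)
    {z : ℂ} (hz : 0 < z.im) (x : Fin d → ℤ) (u : (Fin d → ℤ) → ℂ) :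
    IsGreen K lam ω z x u ↔ u = U281.LAP.Gr K lam ω z x := by
  rw [← U281.LAP.Gr_iff K lam ω hz x u]
  exact Iff.rfl

theorem green_eq {d : ℕ} (K : C(UnitAddTorus (Fin d), ℝ)) (lam : ℝ) (ω : (Fin d → ℤ) → ℝ)
    {z : ℂ} (hz : 0 < z.im) (x : Fin d → ℤ) :
    green K lam ω z x = U281.LAP.Gr K lam ω z x := by
  have hex : ∃ u, IsGreen K lam ω z x u := ⟨_, (isGreen_iff K lam ω hz x _).2 rfl⟩
  unfold green
  rw [dif_pos hex]
  exact (isGreen_iff K lam ω hz x _).1 (Classical.choose_spec hex)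

theorem specMeasure_spec {d : ℕ} {K : C(UnitAddTorus (Fin d), ℝ)} {lam : ℝ}
    {ω : (Fin d → ℤ) → ℝ} {x : Fin d → ℤ} {μ : Measure ℝ} (h : IsSpectral K lam ω x μ) :
    specMeasure K lam ω x = μ := by
  have hex : ∃ μ, IsSpectral K lam ω x μ := ⟨μ, h⟩
  have h1 : IsSpectral K lam ω x (specMeasure K lam ω x) := by
    unfold specMeasure
    rw [dif_pos hex]
    exact Classical.choose_spec hex
  have := h.1
  have := h1.1
  exact U281.WG.uni _ _ fun z hz => by rw [← h.2 z hz, ← h1.2 z hz]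

/-- The constants of the result. -/
def cst (a b : ℝ) (C : ℕ → ℝ) (q : ℕ) : ℝ :=
  U281.WG.cN C q + (2 * Real.pi * (b - a)) ^ q * U281.WG.cN C (2 * q)

/-- Let `K` be a continuous real function on `T^d`, `d ≥ 1`, let `a < b`, `1 < p < 2`,
`0 ≤ g < d / 3`, `κ, ε > 0`. There are a continuous function `f` with
`∫ |f(λ(k))|^p dk ≤ ε`, `λ` the symbol of `-Δ`, and hopping amplitudes of `f(-Δ)` at most
`ε / (1 + |x|) ^ g`, `|x| = max |x_i|`, and positive constants `C q`, `θ q e`, `c W` such that for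
all probability laws `ν` with spread at least `κ` and all couplings `κ ≤ |lam| ≤ 1 / κ` the operator
`K + f(-Δ) + lam V_ω`, `ω` i.i.d. with law `ν`, has the properties of `Wegner` in `[a, b]` with
these constants. The fair `±1` law is a law on `[-1, 1]` with spread `1 / 2`. -/
theorem result (d : ℕ) (hd : 0 < d) (K : C(UnitAddTorus (Fin d), ℝ)) (a b p g κ ε : ℝ)
    (hab : a < b) (hp1 : 1 < p) (hp2 : p < 2) (hg0 : 0 ≤ g) (hg : g < (d : ℝ) / 3) (hκ : 0 < κ)
    (hε : 0 < ε) :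
    (coin (Set.Icc (-1) 1)ᶜ = 0 ∧ spread coin = 1 / 2) ∧
    ∃ f : C(ℝ, ℝ), (∫ k : UnitAddTorus (Fin d), |f (lapSymbol d k)| ^ p ≤ ε) ∧
      (∀ x : Fin d → ℤ, ‖hopping (f.comp (lapSymbol d)) x‖ ≤ ε / (1 + ‖x‖) ^ g) ∧
      ∃ (C : ℕ → ℝ) (θ : ℕ → ℝ → ℝ) (c : ℝ → ℝ), (∀ q, 0 < C q) ∧ (∀ q e, 0 < e → 0 < θ q e) ∧
        (∀ W, 0 < c W) ∧
        ∀ (ν : Measure ℝ) [IsProbabilityMeasure ν], κ ≤ spread ν →
          ∀ lam : ℝ, κ ≤ |lam| → |lam| ≤ 1 / κ →
            Wegner (K + f.comp (lapSymbol d)) lam ν a b ((b - a) / (4 * d)) C θ c := by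
  refine ⟨⟨coin_supp, spread_coin⟩, ?_⟩
  obtain ⟨f, h1, h2, C, θ, hC, hθ, h3⟩ :=
    U281.LU.fin d K a b p g κ ε hd hab hp1 hp2 hg0 hg hκ hε
  have hd' : (0 : ℝ) < d := by exact_mod_cast hd
  have hba : 0 < b - a := by linarith
  have hη : 0 < (b - a) / (4 * d) := div_pos hba (by positivity)
  have hpi := Real.pi_pos
  have hcN := fun q => U281.WG.cN_pos hC q
  have hc1 : ∀ q, U281.WG.cN C q ≤ cst a b C q := by
    intro q
    have := hcN (2 * q)
    have h5 : 0 ≤ (2 * Real.pi * (b - a)) ^ q * U281.WG.cN C (2 * q) := by positivity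
    unfold cst
    linarith
  have hc2 : ∀ q, (2 * Real.pi * (b - a)) ^ q * U281.WG.cN C (2 * q) ≤ cst a b C q := by
    intro q
    have := hcN q
    unfold cst
    linarith
  refine ⟨f, h1, h2, cst a b C, fun q e => min (θ q e) (θ q (e / 3 ^ (q + 1))),
    fun W => 1 / (4 * (1 + (1 / κ * W) ^ 2) * U281.WG.cN C 1), fun q => (hcN q).trans_le (hc1 q),
    fun q e he => lt_min (hθ q e he) (hθ q _ (by positivity)), fun W => ?_,
    fun ν _ hν lam hl1 hl2 => ?_⟩
  · have := hcN 1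
    positivity
  have h4 : κ ≤ W792.WA.vr ν := by
    rw [spread_eq]
    linarith
  have hF := h3 ν h4 lam hl1 hl2
  have i1 : IsProbabilityMeasure (ν.map fun t => lam * t) :=
    Measure.isProbabilityMeasure_map (by fun_prop)
  obtain ⟨D, hD1, hD2, hD3, hD4, hD5, hD6, hD7⟩ := U281.WG.main hη hC hθ hF
  have hgr : ∀ (ω : (Fin d → ℤ) → ℝ) (z : ℂ), 0 < z.im → ∀ x,
      green (K + f.comp (lapSymbol d)) lam ω z x
        = U281.LAP.Gr (K + f.comp (lapSymbol d)) lam ω z x := fun ω z hz x => green_eq _ lam ω hz x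
  -- the spectral measures
  have hsp : ∀ᵐ ω ∂(Law d ν), ∀ x : Fin d → ℤ,
      IsSpectral (K + f.comp (lapSymbol d)) lam ω x
        (specMeasure (K + f.comp (lapSymbol d)) lam ω x) ∧
      (specMeasure (K + f.comp (lapSymbol d)) lam ω x).restrict (Ioo a b)
        = (volume.restrict (Ioo a b)).withDensity fun E => ENNReal.ofReal (D x ω E) := by
    filter_upwards [hD3] with ω hω x
    obtain ⟨μ, hμ1, hμ2, hμ3⟩ := hω x
    have hs : IsSpectral (K + f.comp (lapSymbol d)) lam ω x μ :=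
      ⟨hμ1, fun z hz => by rw [hgr ω z hz x]; exact hμ2 z hz⟩
    rw [specMeasure_spec hs]
    exact ⟨hs, hμ3⟩
  have hres : ∀ x : Fin d → ℤ, ∀ᵐ ω ∂(Law d ν),
      (specMeasure (K + f.comp (lapSymbol d)) lam ω x).restrict (Ioo a b)
        = (volume.restrict (Ioo a b)).withDensity fun E => ENNReal.ofReal (D x ω E) := by
    intro x
    filter_upwards [hsp] with ω hω
    exact (hω x).2
  have hup : ∀ q : ℕ, 1 ≤ q → ∀ (x : Fin d → ℤ) (E : ℝ), a ≤ E → E ≤ b →
      ∫⁻ ω, ENNReal.ofReal (D x ω E) ^ q ∂(Law d ν) ≤ ENNReal.ofReal (cst a b C q) :=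
    fun q hq x E ha hb => (hD4 q hq x E ha hb).1.trans (ENNReal.ofReal_le_ofReal (hc1 q))
  have hlow : ∀ q : ℕ, 1 ≤ q → ∀ (x : Fin d → ℤ) (E : ℝ), a ≤ E → E ≤ b →
      ∫⁻ ω, (weight lam ω x * ENNReal.ofReal (D x ω E))⁻¹ ^ q ∂(Law d ν)
        ≤ ENNReal.ofReal (cst a b C q) :=
    fun q hq x E ha hb => (hD4 q hq x E ha hb).2.trans (ENNReal.ofReal_le_ofReal (hc1 q))
  have hwm : ∀ x : Fin d → ℤ, Measurable fun ω : (Fin d → ℤ) → ℝ => weight lam ω x := by
    intro x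
    have h5 : Measurable fun ω : (Fin d → ℤ) → ℝ => 1 + (lam * ω x) ^ 2 := by fun_prop
    exact h5.ennreal_ofReal
  refine ⟨fun z hz x => ⟨fun ω u => ?_, fun y => ?_⟩, ?_, fun q hq x J hJ hJs hJ0 => ⟨?_, ?_⟩,
    ⟨D, hD1, hD2, ?_, fun q hq x E ha hb => ⟨hup q hq x E ha hb, hlow q hq x E ha hb⟩,
      fun q e hq he x z hz hzθ => ?_, fun q e hq he x E E' ha hb ha' hb' hE => ?_⟩, ?_,
    fun q hq x => ?_⟩
  · rw [green_eq _ lam ω hz x]
    exact isGreen_iff _ lam ω hz x u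
  · simp only [green_eq _ lam _ hz x]
    exact U281.LAP.Gr_meas _ lam hz x y
  · filter_upwards [hsp] with ω hω x μ
    constructor
    · intro h
      exact (specMeasure_spec h).symm
    · intro h
      rw [h]
      exact (hω x).1
  · have h5 : ∫⁻ ω, specMeasure (K + f.comp (lapSymbol d)) lam ω x J ^ q ∂(Law d ν)
        = ∫⁻ ω, (∫⁻ E in J, ENNReal.ofReal (D x ω E)) ^ q ∂(Law d ν) := by
      refine lintegral_congr_ae ?_
      filter_upwards [hres x] with ω hω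
      rw [U281.WG.mass_eq hω hJ hJs]
    rw [h5]
    exact U281.WG.up_set (Law d ν) (fun ω E => ENNReal.ofReal (D x ω E)) (hD1 x).ennreal_ofReal
      q hq _ (fun E ha hb => hup q hq x E ha hb) J hJ (hJs.trans Ioo_subset_Icc_self)
  · have h5 : ∫⁻ ω, (weight lam ω x *
          specMeasure (K + f.comp (lapSymbol d)) lam ω x J)⁻¹ ^ q ∂(Law d ν)
        = ∫⁻ ω, (weight lam ω x * ∫⁻ E in J, ENNReal.ofReal (D x ω E))⁻¹ ^ q ∂(Law d ν) := by
      refine lintegral_congr_ae ?_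
      filter_upwards [hres x] with ω hω
      rw [U281.WG.mass_eq hω hJ hJs]
    rw [h5]
    exact U281.WG.low_set (Law d ν) (fun ω E => ENNReal.ofReal (D x ω E)) (hD1 x).ennreal_ofReal
      (fun ω => weight lam ω x) (hwm x)
      q hq _ (fun E ha hb => hlow q hq x E ha hb) J hJ (hJs.trans Ioo_subset_Icc_self) hJ0
  · filter_upwards [hsp] with ω hω x
    exact (hω x).2
  · have hz2 : 0 < z.im := hz.2.2.1
    simp only [green_eq _ lam _ hz2 x]
    exact hD5 q e hq he x z hz (hzθ.trans (min_le_left _ _))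
  · exact hD6 q e hq he x E E' ha hb ha' hb' (hE.trans (min_le_right _ _))
  · -- the density of states
    obtain ⟨n, hn⟩ : ∃ n : ℝ → ℝ, n = fun E => (∫⁻ ω, ENNReal.ofReal (D 0 ω E) ∂(Law d ν)).toReal :=
      ⟨_, rfl⟩
    have hfin : ∀ (x : Fin d → ℤ) (E : ℝ), a ≤ E → E ≤ b →
        ∫⁻ ω, ENNReal.ofReal (D x ω E) ∂(Law d ν) ≤ ENNReal.ofReal (cst a b C 1) := by
      intro x E ha hb
      have := hup 1 le_rfl x E ha hb
      simpa only [pow_one] using this
    have hn0 : ∀ E, 0 ≤ n E := fun E => by rw [hn]; exact ENNReal.toReal_nonneg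
    have hnE : ∀ (x : Fin d → ℤ) (E : ℝ), a ≤ E → E ≤ b →
        ∫⁻ ω, ENNReal.ofReal (D x ω E) ∂(Law d ν) = ENNReal.ofReal (n E) := by
      intro x E ha hb
      rw [hn]
      rw [ENNReal.ofReal_toReal (ne_top_of_le_ne_top ENNReal.ofReal_ne_top (hfin 0 E ha hb))]
      exact hD7 x E ha hb
    have hcont : ∀ e : ℝ, 0 < e → ∀ E E' : ℝ, a ≤ E → E ≤ b → a ≤ E' → E' ≤ b →
        |E - E'| ≤ θ 1 (e / 3 ^ (1 + 1)) → n E ≤ n E' + e := by
      intro e he E E' ha hb ha' hb' hE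
      have h5 := U281.WG.ofReal_near (Law d ν) (fun ω => D 0 ω E) (fun ω => D 0 ω E')
        (hD1 0).of_uncurry_right (fun ω => hD2 0 ω E') e
        (hD6 1 e le_rfl he 0 E E' ha hb ha' hb' hE)
      rw [hnE 0 E ha hb, hnE 0 E' ha' hb', ← ENNReal.ofReal_add (hn0 E') he.le,
        ENNReal.ofReal_le_ofReal_iff (add_nonneg (hn0 E') he.le)] at h5
      exact h5
    refine ⟨n, fun x J hJ hJs => ?_, fun e he E E' ha hb ha' hb' hE => ?_,
      fun E ha hb => ⟨hn0 E, ?_, fun W hW => ?_⟩⟩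
    · exact U281.WG.mean_dens (Law d ν) (D x) (hD1 x) (fun E => ENNReal.ofReal (n E))
        (fun ω => specMeasure (K + f.comp (lapSymbol d)) lam ω x) (hres x)
        (fun E ha hb => hnE x E ha hb) J hJ hJs
    · have hE' := hE.trans (min_le_right _ _)
      rw [abs_le]
      constructor
      · have := hcont e he E' E ha' hb' ha hb (by rw [abs_sub_comm]; exact hE')
        linarith
      · have := hcont e he E E' ha hb ha' hb' hE'
        linarith
    · have h5 := hfin 0 E ha hb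
      rw [hnE 0 E ha hb, ENNReal.ofReal_le_ofReal_iff ((hcN 1).le.trans (hc1 1))] at h5
      exact h5
    · have hM : (0 : ℝ) < 1 + (1 / κ * W) ^ 2 := by positivity
      have h6 : (2 : ℝ≥0∞)⁻¹ ≤ (Law d ν) {ω | weight lam ω 0 ≤ ENNReal.ofReal
          (1 + (1 / κ * W) ^ 2)} := by
        refine hW.trans ?_
        have hmp := measurePreserving_eval_infinitePi (fun _ : Fin d → ℤ => ν) 0
        have h7 := hmp.measure_preimage (s := Icc (-W) W) measurableSet_Icc.nullMeasurableSet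
        rw [← h7]
        refine measure_mono fun ω hω => ?_
        have h8 : -W ≤ ω 0 ∧ ω 0 ≤ W := hω
        show ENNReal.ofReal (1 + (lam * ω 0) ^ 2) ≤ ENNReal.ofReal (1 + (1 / κ * W) ^ 2)
        apply ENNReal.ofReal_le_ofReal
        have h9 : |lam * ω 0| ≤ 1 / κ * W := by
          rw [abs_mul]
          exact mul_le_mul hl2 (abs_le.2 h8) (abs_nonneg _) (by positivity)
        have h10 : (lam * ω 0) ^ 2 ≤ (1 / κ * W) ^ 2 := by
          rw [← sq_abs (lam * ω 0)]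
          exact pow_le_pow_left₀ (abs_nonneg _) h9 2
        linarith
      have h5 := U281.WG.mean_low (Law d ν) (fun ω => ENNReal.ofReal (D 0 ω E))
        ((hD1 0).of_uncurry_right).ennreal_ofReal (fun ω => weight lam ω 0) (hwm 0)
        (1 + (1 / κ * W) ^ 2) (U281.WG.cN C 1) hM (hcN 1) (hD4 1 le_rfl 0 E ha hb).2 h6
      rw [hnE 0 E ha hb, ENNReal.ofReal_le_ofReal_iff (hn0 E)] at h5
      exact h5
  · refine (U281.WG.ret (Law d ν) (D x) (hD1 x) (hD2 x) hab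
      (fun ω => specMeasure (K + f.comp (lapSymbol d)) lam ω x) (hres x) q hq
      (U281.WG.cN C (2 * q)) (fun E ha hb => (hD4 (2 * q) (by omega) x E ha hb).1)).trans ?_
    exact ENNReal.ofReal_le_ofReal (hc2 q)

end

end Pool.Agent.Results.MP_d0f69c_mp.WegnerBernoulli
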